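import Mathlib

/-! Elementary counting tools: boxes, lattices of rank two, divisors, coprime shifts. -/

namespace Pool.Agent.Lib.MP_65b7ad_nt

open Finset

/-- The integers of absolute value at most `H`. -/
noncomputable def I (H : ℕ) : Finset ℤ := Icc (-(H : ℤ)) H

@[simp] theorem mem_I {H : ℕ} {x : ℤ} : x ∈ I H ↔ |x| ≤ H := by rw [I, mem_Icc, abs_le]

@[simp] theorem card_I (H : ℕ) : #(I H) = 2 * H + 1 := by
  rw [I, Int.card_Icc]; omega

theorem card_le_of_diff {A : Type*} [AddCommGroup A] (S D : Finset A)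
    (h : ∀ s ∈ S, ∀ s' ∈ S, s - s' ∈ D) : #S ≤ #D := by
  rcases S.eq_empty_or_nonempty with rfl | ⟨s₀, hs₀⟩
  · simp
  · exact card_le_card_of_injOn (fun s => s - s₀) (fun s hs => h s hs s₀ hs₀)
      fun a _ b _ e => sub_left_injective e

theorem cast_ediv_le (a : ℤ) {b : ℤ} (hb : 0 < b) : ((a / b : ℤ) : ℝ) ≤ (a : ℝ) / b := by
  rw [le_div_iff₀ (by exact_mod_cast hb)]
  exact_mod_cast Int.ediv_mul_le a hb.ne'

theorem abs_ediv_le {d b E : ℤ} (hb : 0 < b) (h : b ∣ d) (hE : |d| ≤ E) :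
    d / b ∈ Icc (-(E / b)) (E / b) := by
  obtain ⟨k, rfl⟩ := h
  rw [Int.mul_ediv_cancel_left _ hb.ne', mem_Icc, ← abs_le, Int.le_ediv_iff_mul_le hb]
  rwa [abs_mul, abs_of_pos hb, mul_comm] at hE

theorem card_mult (S : Finset ℤ) {b E : ℤ} (hb : 0 < b) (hE : 0 ≤ E)
    (h : ∀ d ∈ S, b ∣ d ∧ |d| ≤ E) : (#S : ℝ) ≤ 2 * (E : ℝ) / b + 1 := by
  have h1 : #S ≤ #(Icc (-(E / b)) (E / b)) :=
    card_le_card_of_injOn (fun d => d / b) (fun d hd => abs_ediv_le hb (h d hd).1 (h d hd).2)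
      fun x hx y hy e => by
        rw [← Int.mul_ediv_cancel' (h x hx).1, ← Int.mul_ediv_cancel' (h y hy).1]
        exact congrArg _ e
  have h2 : 0 ≤ E / b := Int.ediv_nonneg hE hb.le
  have h3 : (#(Icc (-(E / b)) (E / b)) : ℤ) = 2 * (E / b) + 1 := by
    rw [Int.card_Icc_of_le _ _ (by omega)]; ring
  have h4 : (#S : ℝ) ≤ 2 * ((E / b : ℤ) : ℝ) + 1 := by
    have : (#S : ℤ) ≤ 2 * (E / b) + 1 := h3 ▸ Int.ofNat_le.2 h1
    exact_mod_cast this
  have := cast_ediv_le E hb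
  rw [mul_div_assoc]
  linarith

/-- Counting in a lattice of rank two by means of a shortest difference. -/
theorem lat {A : Type*} [AddCommGroup A] [DecidableEq A] {n : ℕ} [NeZero n] (S : Finset A)
    (w : A → Fin n → ℤ) (Dt : A → A → ℤ) (κ : ℕ)
    (hw : ∀ a b i, w (a - b) i = w a i - w b i) (hD : ∀ a s s', Dt a (s - s') = Dt a s - Dt a s')
    (hpar : ∀ a b, Dt a b = 0 → ∀ i j, w a i * w b j = w a j * w b i)
    (hκ : ∀ s₀ ∈ S, #{s ∈ S | w s = w s₀} ≤ κ) :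
    #S ≤ κ ∨ ∃ s ∈ S, ∃ s' ∈ S, ∃ μ : ℤ, 0 < μ ∧ (∃ j, |w (s - s') j| = μ) ∧
      (∀ i, |w (s - s') i| ≤ μ) ∧ ∀ b E W : ℤ, 0 < b → 0 ≤ E → 0 ≤ W →
      (∀ t ∈ S, b ∣ Dt (s - s') t ∧ |Dt (s - s') t| ≤ E) → (∀ t ∈ S, ∀ i, |w t i| ≤ W) →
      (#S : ℝ) ≤ κ * ((2 * (E : ℝ) / b + 1) * (2 * (W : ℝ) / μ + 1)) := by
  classical
  let Tr := {p ∈ S ×ˢ S ×ˢ (univ : Finset (Fin n)) |
    0 < |w (p.1 - p.2.1) p.2.2| ∧ ∀ i, |w (p.1 - p.2.1) i| ≤ |w (p.1 - p.2.1) p.2.2|}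
  have hTr : ∀ s ∈ S, ∀ s' ∈ S, w s = w s' ∨ ∃ j, (s, s', j) ∈ Tr := by
    intro s hs s' hs'
    obtain ⟨j, -, hj⟩ := exists_max_image univ (fun i => |w (s - s') i|) univ_nonempty
    by_cases h0 : 0 < |w (s - s') j|
    · exact Or.inr ⟨j, mem_filter.2 ⟨by simp [hs, hs'], h0, fun i => hj i (mem_univ _)⟩⟩
    · refine Or.inl (funext fun i => ?_)
      have h1 := hj i (mem_univ _)
      have h2 := abs_nonneg (w (s - s') i)
      have h3 : w (s - s') i = 0 := abs_eq_zero.1 (by omega)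
      rw [hw] at h3
      omega
  rcases Tr.eq_empty_or_nonempty with he | hne
  · left
    rcases S.eq_empty_or_nonempty with rfl | ⟨s₀, hs₀⟩
    · simp
    · refine le_trans (card_le_card fun s hs => mem_filter.2 ⟨hs, ?_⟩) (hκ s₀ hs₀)
      refine (hTr s hs s₀ hs₀).resolve_right ?_
      simp [he]
  right
  obtain ⟨⟨s, s', j⟩, hm, hmin⟩ := exists_min_image Tr (fun p => |w (p.1 - p.2.1) p.2.2|) hne
  obtain ⟨h1, h2, h3⟩ := mem_filter.1 hm
  simp only [mem_product, mem_univ, and_true] at h1 h2 h3 hmin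
  refine ⟨s, h1.1, s', h1.2, _, h2, ⟨j, rfl⟩, h3, fun b E W hb hE hW hd hwW => ?_⟩
  set μ := |w (s - s') j| with hμ
  have h4 : #S ≤ κ * #(Icc (-(E / b)) (E / b) ×ˢ Icc 0 (2 * W / μ)) := by
    refine card_le_mul_card_image_of_maps_to
      (f := fun t => (Dt (s - s') t / b, (w t j + W) / μ)) (fun t ht => ?_) κ fun p _ => ?_
    · have := abs_le.1 (hwW t ht j)
      exact mem_product.2 ⟨abs_ediv_le hb (hd t ht).1 (hd t ht).2,
        mem_Icc.2 ⟨Int.ediv_nonneg (by omega) h2.le, Int.ediv_le_ediv h2 (by omega)⟩⟩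
    · rcases ({t ∈ S | (Dt (s - s') t / b, (w t j + W) / μ) = p}).eq_empty_or_nonempty with
        e | ⟨t₀, ht₀⟩
      · simp [e]
      obtain ⟨ht₀, e₀⟩ := mem_filter.1 ht₀
      refine le_trans (card_le_card fun t ht => ?_) (hκ t₀ ht₀)
      obtain ⟨ht, e⟩ := mem_filter.1 ht
      obtain ⟨e1, e2⟩ := Prod.ext_iff.1 (e.trans e₀.symm)
      refine mem_filter.2 ⟨ht, (hTr t ht t₀ ht₀).resolve_right fun ⟨j', hj'⟩ => ?_⟩
      have k1 : Dt (s - s') (t - t₀) = 0 := by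
        rw [hD, ← Int.mul_ediv_cancel' (hd t ht).1, ← Int.mul_ediv_cancel' (hd t₀ ht₀).1,
          show Dt (s - s') t / b = Dt (s - s') t₀ / b from e1, sub_self]
      have k2 : |w (t - t₀) j| < μ := by
        have a1 := Int.mul_ediv_add_emod (w t j + W) μ
        have a2 := Int.mul_ediv_add_emod (w t₀ j + W) μ
        have a3 := Int.emod_nonneg (w t j + W) h2.ne'
        have a4 := Int.emod_nonneg (w t₀ j + W) h2.ne'
        have a5 := Int.emod_lt_of_pos (w t j + W) h2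
        have a6 := Int.emod_lt_of_pos (w t₀ j + W) h2
        rw [show (w t j + W) / μ = (w t₀ j + W) / μ from e2] at a1
        rw [hw, abs_lt]
        omega
      have k3 := hmin _ hj'
      have k4 := congrArg abs (hpar _ _ k1 j' j)
      rw [abs_mul, abs_mul, ← hμ] at k4
      have k5 := h3 j'
      have k6 := abs_nonneg (w (t - t₀) j)
      simp only at k3
      nlinarith
  have h5 : 0 ≤ E / b := Int.ediv_nonneg hE hb.le
  have h6 : 0 ≤ 2 * W / μ := Int.ediv_nonneg (by omega) h2.le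
  have h7 : (#S : ℤ) ≤ κ * ((2 * (E / b) + 1) * (2 * W / μ + 1)) := by
    have := Int.ofNat_le.2 h4
    rw [card_product] at this
    push_cast at this
    rw [Int.card_Icc_of_le _ _ (by omega), Int.card_Icc_of_le _ _ (by omega)] at this
    refine this.trans (le_of_eq ?_)
    ring
  have h8 : (#S : ℝ) ≤ κ * ((2 * ((E / b : ℤ) : ℝ) + 1) * (((2 * W / μ : ℤ) : ℝ) + 1)) := by
    exact_mod_cast h7
  have h9 := cast_ediv_le E hb
  have h10 := cast_ediv_le (2 * W) h2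
  have h11 : (0 : ℝ) ≤ ((E / b : ℤ) : ℝ) := by exact_mod_cast h5
  have h12 : (0 : ℝ) ≤ ((2 * W / μ : ℤ) : ℝ) := by exact_mod_cast h6
  refine h8.trans ?_
  push_cast at h10
  rw [mul_div_assoc 2 (E : ℝ)]
  gcongr

/-- `T` bounds the number of divisors up to `N`. -/
def Dv (T N : ℕ) : Prop := ∀ n ≤ N, #n.divisors ≤ T

theorem Dv.pos {T N : ℕ} (h : Dv T N) {m : ℤ} (h0 : m ≠ 0) (hm : |m| ≤ N) (S : Finset ℤ)
    (hS : ∀ x ∈ S, 0 ≤ x ∧ x ∣ m) : #S ≤ T := by
  refine le_trans (card_le_card_of_injOn Int.natAbs (fun x hx => ?_) fun x hx y hy e => ?_)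
    (h m.natAbs (by rw [Int.abs_eq_natAbs] at hm; exact_mod_cast hm))
  · exact Nat.mem_divisors.2 ⟨Int.natAbs_dvd_natAbs.2 (hS x hx).2, by omega⟩
  · have := (hS x hx).1
    have := (hS y hy).1
    omega

theorem Dv.all {T N : ℕ} (h : Dv T N) {m : ℤ} (h0 : m ≠ 0) (hm : |m| ≤ N) (S : Finset ℤ)
    (hS : ∀ x ∈ S, x ∣ m) : #S ≤ 2 * T := by
  have h1 := h.pos h0 hm {x ∈ S | 0 ≤ x} fun x hx =>
    ⟨(mem_filter.1 hx).2, hS x (mem_filter.1 hx).1⟩
  have h2 := h.pos h0 hm (({x ∈ S | ¬ 0 ≤ x}).image Neg.neg) fun x hx => by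
    obtain ⟨y, hy, rfl⟩ := mem_image.1 hx
    exact ⟨by have := (mem_filter.1 hy).2; omega, (neg_dvd).2 (hS y (mem_filter.1 hy).1)⟩
  rw [card_image_of_injective _ neg_injective] at h2
  have := card_filter_add_card_filter_not (s := S) fun x => 0 ≤ x
  omega

theorem Dv.log {T N : ℕ} (h : Dv T N) {n : ℕ} (hn : n ≤ N) (h0 : n ≠ 0) :
    Nat.log 2 n + 1 ≤ T := by
  have := h (2 ^ Nat.log 2 n) ((Nat.pow_log_le_self 2 h0).trans hn)
  rwa [Nat.divisors_prime_pow Nat.prime_two, card_map, card_range] at this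

/-- Pairs with a bounded product. -/
noncomputable def Pairs (L : ℕ) : Finset (ℤ × ℤ) := {p ∈ I L ×ˢ I L | p.2 ≠ 0 ∧ |p.1 * p.2| ≤ L}

theorem mem_Pairs {L : ℕ} {a b : ℤ} (h0 : b ≠ 0) (hb : |b| ≤ L) (h : |a * b| ≤ L) :
    (a, b) ∈ Pairs L := by
  refine mem_filter.2 ⟨mem_product.2 ⟨mem_I.2 ?_, mem_I.2 hb⟩, h0, h⟩
  have := abs_pos.2 h0
  have := abs_nonneg a
  rw [abs_mul] at h
  show |a| ≤ L
  nlinarith

theorem card_Pairs {T N L : ℕ} (h : Dv T N) (hL : L ≤ N) :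
    #(Pairs L) ≤ (2 * L + 1) * (2 * T + 1) := by
  have h1 : #{p ∈ Pairs L | p.1 = 0} ≤ #(I L) :=
    card_le_card_of_injOn Prod.snd
      (fun p hp => (mem_product.1 (mem_filter.1 (mem_filter.1 hp).1).1).2)
      fun p hp q hq e => Prod.ext ((mem_filter.1 hp).2.trans (mem_filter.1 hq).2.symm) e
  have h2 : #{p ∈ Pairs L | ¬ p.1 = 0} ≤ (2 * T) * #(I L) := by
    refine card_le_mul_card_image_of_maps_to (f := fun p => p.1 * p.2)
      (fun p hp => mem_I.2 (mem_filter.1 (mem_filter.1 hp).1).2.2) _ fun k hk => ?_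
    by_cases k0 : k = 0
    · rw [card_eq_zero.2]
      · exact Nat.zero_le _
      · refine filter_eq_empty_iff.2 fun p hp e => ?_
        obtain ⟨a1, a2⟩ := mem_filter.1 hp
        exact mul_ne_zero a2 (mem_filter.1 a1).2.1 (e.trans k0)
    · rw [← card_image_of_injOn (f := Prod.snd)]
      · refine h.all k0 ((mem_I.1 hk).trans (by exact_mod_cast hL)) _ fun x hx => ?_
        obtain ⟨p, hp, rfl⟩ := mem_image.1 hx
        exact ⟨p.1, by rw [← (mem_filter.1 hp).2, mul_comm]⟩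
      · intro p hp q hq e
        obtain ⟨a1, a2⟩ := mem_filter.1 hp
        refine Prod.ext (mul_right_cancel₀ (mem_filter.1 (mem_filter.1 a1).1).2.1 ?_) e
        rw [a2, e, (mem_filter.1 hq).2]
  have := card_filter_add_card_filter_not (s := Pairs L) fun p => p.1 = 0
  rw [card_I] at h1 h2
  nlinarith

/-- A harmonic sum. -/
noncomputable def hs (L : ℕ) : ℝ := ∑ a ∈ I L, 1 / (|(a : ℝ)| + 1)

theorem hs_le (L : ℕ) : hs L ≤ 1 + 2 * Real.log (L + 1) := by
  induction L with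
  | zero => simp [hs, I]
  | succ L ih =>
    have e : I (L + 1) = insert ((L : ℤ) + 1) (insert (-((L : ℤ) + 1)) (I L)) := by
      ext x
      simp only [mem_I, mem_insert, abs_le]
      omega
    have h1 := Real.one_sub_inv_le_log_of_pos (x := ((L : ℝ) + 1 + 1) / (L + 1)) (by positivity)
    rw [Real.log_div (by positivity) (by positivity), inv_div] at h1
    have h2 : 1 - ((L : ℝ) + 1) / (L + 1 + 1) = 1 / (L + 1 + 1) := by field_simp; ring
    rw [hs, e, sum_insert (by simp only [mem_I, mem_insert, abs_le]; omega),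
      sum_insert (by simp only [mem_I, abs_le]; omega), ← hs]
    push_cast
    rw [abs_neg, abs_of_pos (by positivity : (0 : ℝ) < L + 1)]
    linarith

theorem Dv.hs {T N L : ℕ} (h : Dv T N) (hL : L + 1 ≤ N) : hs L ≤ 3 * T := by
  have h1 := h.log hL (by omega)
  have h2 : ((L : ℝ) + 1) ≤ 2 ^ T := by
    have := (Nat.lt_pow_succ_log_self one_lt_two (L + 1)).le.trans
      (Nat.pow_le_pow_right two_pos h1)
    exact_mod_cast this
  have h3 := Real.log_le_log (by positivity) h2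
  rw [Real.log_pow] at h3
  have h4 := Real.log_two_lt_d9
  have h5 : (1 : ℝ) ≤ T := by exact_mod_cast (by omega : 1 ≤ T)
  have := hs_le L
  nlinarith

theorem prim (x y z : ℤ) (h : ¬ (x = 0 ∧ y = 0 ∧ z = 0)) : ∃ g a b c α β γ : ℤ, 0 < g ∧
    x = g * a ∧ y = g * b ∧ z = g * c ∧ α * a + β * b + γ * c = 1 := by
  have h1 := Int.gcd_eq_gcd_ab y z
  have h2 := Int.gcd_eq_gcd_ab x (Int.gcd y z)
  have h0 : (0 : ℤ) < Int.gcd x (Int.gcd y z) := by
    rw [Int.natCast_pos, Int.gcd_pos_iff]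
    by_contra e
    simp only [ne_eq, Int.natCast_eq_zero, Int.gcd_eq_zero_iff, not_or, not_not] at e
    exact h e
  obtain ⟨a, ha⟩ := Int.gcd_dvd_left x (Int.gcd y z)
  obtain ⟨b, hb⟩ := (Int.gcd_dvd_right x (Int.gcd y z)).trans (Int.gcd_dvd_left y z)
  obtain ⟨c, hc⟩ := (Int.gcd_dvd_right x (Int.gcd y z)).trans (Int.gcd_dvd_right y z)
  refine ⟨_, a, b, c, Int.gcdA x (Int.gcd y z), Int.gcdA y z * Int.gcdB x (Int.gcd y z),
    Int.gcdB y z * Int.gcdB x (Int.gcd y z), h0, ha, hb, hc, mul_left_cancel₀ h0.ne' ?_⟩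
  generalize Int.gcdA x (Int.gcd y z) = u at *
  generalize Int.gcdB x (Int.gcd y z) = v at *
  generalize ((Int.gcd x (Int.gcd y z) : ℕ) : ℤ) = g at *
  linear_combination -h2 - v * h1 - u * ha - Int.gcdA y z * v * hb - Int.gcdB y z * v * hc

theorem shift_small (P : Finset ℕ) (Y Z : ℤ) (hP : ∀ p ∈ P, p.Prime ∧ ¬ ((p : ℤ) ∣ Y ∧ (p : ℤ) ∣ Z)) :
    ∃ k < ∏ p ∈ P, p, ∀ p ∈ P, ¬ (p : ℤ) ∣ Z + k * Y := by
  induction P using Finset.induction_on with
  | empty => exact ⟨0, by simp, by simp⟩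
  | insert p P hp ih =>
    obtain ⟨k, hk, h⟩ := ih fun q hq => hP q (mem_insert_of_mem hq)
    obtain ⟨pp, hpY⟩ := hP p (mem_insert_self _ _)
    have h2 := pp.two_le
    rw [prod_insert hp]
    by_cases e : (p : ℤ) ∣ Z + k * Y
    · refine ⟨k + ∏ q ∈ P, q, by nlinarith, fun q hq => ?_⟩
      have e1 : Z + ((k + ∏ q ∈ P, q : ℕ) : ℤ) * Y = Z + k * Y + ((∏ q ∈ P, q : ℕ) : ℤ) * Y := by
        push_cast; ring
      rw [e1]
      rcases mem_insert.1 hq with rfl | hq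
      · rw [dvd_add_right e]
        intro e2
        rcases (Nat.prime_iff_prime_int.1 pp).dvd_or_dvd e2 with e3 | e3
        · obtain ⟨r, hr, e4⟩ := (pp.prime.dvd_finsetProd_iff _).1 (Int.natCast_dvd_natCast.1 e3)
          exact hp (((Nat.prime_dvd_prime_iff_eq pp (hP r (mem_insert_of_mem hr)).1).1 e4) ▸ hr)
        · exact hpY ⟨e3, (dvd_add_left (e3.mul_left _)).1 e⟩
      · have : (q : ℤ) ∣ ((∏ q ∈ P, q : ℕ) : ℤ) :=
          Int.natCast_dvd_natCast.2 (dvd_prod_of_mem (fun q => q) hq)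
        rw [dvd_add_left (this.mul_right _)]
        exact h q hq
    · refine ⟨k, by nlinarith, fun q hq => ?_⟩
      rcases mem_insert.1 hq with rfl | hq
      exacts [e, h q hq]

/-- A small shift makes two of three coprime integers coprime. -/
theorem shift {T N : ℕ} (h : Dv T N) {X Y Z α β γ : ℤ} (hX : 0 < X) (hN : X ≤ N)
    (hb : α * X + β * Y + γ * Z = 1) : ∃ k < 2 * T ^ 3, IsCoprime X (Z + (k : ℕ) * Y) := by
  set P := X.natAbs.primeFactors with hP
  set r := #P with hr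
  have hT : 2 ^ r ≤ T := by
    refine le_trans ?_ (h X.natAbs (by omega))
    rw [Nat.card_divisors (by omega)]
    exact pow_card_le_prod _ _ _ fun p hp => by
      have := (Nat.prime_of_mem_primeFactors hp).factorization_pos_of_dvd (by omega)
        (Nat.dvd_of_mem_primeFactors hp)
      omega
  have hp : ∀ p ∈ P, p.Prime ∧ ¬ ((p : ℤ) ∣ Y ∧ (p : ℤ) ∣ Z) := fun p hp => by
    refine ⟨Nat.prime_of_mem_primeFactors hp, fun e => ?_⟩
    have e1 : (p : ℤ) ∣ X := Int.natCast_dvd.2 (Nat.dvd_of_mem_primeFactors hp)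
    have e2 : (p : ℤ) ∣ 1 := hb ▸ ((e1.mul_left _).add (e.1.mul_left _)).add (e.2.mul_left _)
    exact (Nat.prime_iff_prime_int.1 (Nat.prime_of_mem_primeFactors hp)).not_dvd_one e2
  obtain ⟨k, hk, h1⟩ := shift_small {p ∈ P | p ≤ r} Y Z fun p h => hp p (mem_filter.1 h).1
  set W := ∏ p ∈ P with p ≤ r, p with hW
  have hW4 : W ≤ 4 ^ r := by
    refine le_trans ?_ (primorial_le_four_pow r)
    refine prod_le_prod_of_subset_of_one_le' (fun p h => ?_) fun p h _ => (mem_filter.1 h).2.one_le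
    obtain ⟨a1, a2⟩ := mem_filter.1 h
    exact mem_filter.2 ⟨mem_range.2 (by omega), (hp p a1).1⟩
  have h2 : ∃ j < r + 1, ∀ p ∈ P, ¬ (p : ℤ) ∣ Z + (k + j * W : ℕ) * Y := by
    by_contra hc
    push Not at hc
    choose f hf1 hf2 using hc
    have hinj : #(range (r + 1)).attach ≤ #P := by
      refine card_le_card_of_injOn (fun j => f j.1 (mem_range.1 j.2)) (fun j _ => hf1 _ _)
        fun i _ j _ e => ?_
      have a1 := hf2 i.1 (mem_range.1 i.2)
      have a2 := hf2 j.1 (mem_range.1 j.2)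
      have a3 := hf1 j.1 (mem_range.1 j.2)
      have ai := mem_range.1 i.2
      have aj := mem_range.1 j.2
      simp only at e
      rw [e] at a1
      generalize f j.1 _ = p at *
      have pp := Nat.prime_iff_prime_int.1 (hp p a3).1
      have b1 : ¬ p ≤ r := fun b => by
        refine h1 p (mem_filter.2 ⟨a3, b⟩) ?_
        have b2 : (p : ℤ) ∣ W := Int.natCast_dvd_natCast.2 (dvd_prod_of_mem _ (mem_filter.2 ⟨a3, b⟩))
        have := a2.sub ((b2.mul_left (j.1 : ℤ)).mul_right Y)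
        push_cast at this
        rwa [show Z + (k + j.1 * W) * Y - j.1 * W * Y = Z + k * Y by ring] at this
      have b3 : (p : ℤ) ∣ ((i.1 : ℤ) - j.1) * W * Y := by
        have := a1.sub a2
        push_cast at this
        rwa [show Z + (k + i.1 * W) * Y - (Z + (k + j.1 * W) * Y) = ((i.1 : ℤ) - j.1) * W * Y by
          ring] at this
      rcases pp.dvd_or_dvd b3 with b4 | b4
      · rcases pp.dvd_or_dvd b4 with b5 | b5
        · have := Int.eq_zero_of_abs_lt_dvd b5 (by rw [abs_lt]; omega)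
          exact Subtype.ext (by omega)
        · obtain ⟨s, hs, e4⟩ := ((hp p a3).1.prime.dvd_finsetProd_iff _).1
            (Int.natCast_dvd_natCast.1 b5)
          obtain ⟨c1, c2⟩ := mem_filter.1 hs
          exact absurd (((Nat.prime_dvd_prime_iff_eq (hp p a3).1 (hp s c1).1).1 e4) ▸ c2) b1
      · exact absurd ⟨b4, (dvd_add_left (b4.mul_left _)).1 a2⟩ (hp p a3).2
    simp at hinj
    omega
  obtain ⟨j, hj, h3⟩ := h2
  refine ⟨k + j * W, ?_, ?_⟩
  · have a1 : r + 1 ≤ 2 ^ r := Nat.lt_two_pow_self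
    have a2 : 4 ^ r = 2 ^ r * 2 ^ r := by rw [← mul_pow]; norm_num
    have a3 : k + j * W < (r + 1) * W := by nlinarith
    have a4 : (r + 1) * W ≤ T * (T * T) := Nat.mul_le_mul (a1.trans hT)
      (hW4.trans (a2 ▸ Nat.mul_le_mul hT hT))
    nlinarith
  · rw [Int.isCoprime_iff_gcd_eq_one]
    refine Nat.coprime_of_dvd fun p pp e1 e2 => h3 p ?_ (Int.natCast_dvd.2 e2)
    exact Nat.mem_primeFactors.2 ⟨pp, e1, by omega⟩

end Pool.Agent.Lib.MP_65b7ad_nt
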