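import Pool.Agent.Lib.MP_65b7ad_nt.A

/-! Binary forms, and the number of cubics through one point. -/

namespace Pool.Agent.Lib.MP_65b7ad_nt

open Finset

/-- A box of coefficient vectors. -/
noncomputable def Bx (n H : ℕ) : Finset (Fin n → ℤ) := Fintype.piFinset fun _ => I H

theorem mem_Bx {n H : ℕ} {a : Fin n → ℤ} : a ∈ Bx n H ↔ ∀ i, |a i| ≤ H := by simp [Bx]

theorem card_Bx (n H : ℕ) : #(Bx n H) = (2 * H + 1) ^ n := by simp [Bx]

theorem sub_Bx {n H : ℕ} {a b : Fin n → ℤ} (ha : a ∈ Bx n H) (hb : b ∈ Bx n H) (i : Fin n) :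
    |a i - b i| ≤ 2 * H := by
  have := abs_le.1 (mem_Bx.1 ha i)
  have := abs_le.1 (mem_Bx.1 hb i)
  rw [abs_le]
  omega

theorem card_le_diff {α A : Type*} [AddCommGroup A] [DecidableEq A] (S : Finset α) (f : α → A)
    (D : Finset A) (n : ℕ) (h1 : ∀ s ∈ S, ∀ s' ∈ S, f s - f s' ∈ D)
    (h2 : ∀ b, #{s ∈ S | f s = b} ≤ n) : #S ≤ n * #D := by
  refine (card_le_mul_card_image (f := f) S n fun b _ => h2 b).trans
    (Nat.mul_le_mul_left _ (card_le_of_diff _ _ fun x hx y hy => ?_))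
  obtain ⟨s, hs, rfl⟩ := mem_image.1 hx
  obtain ⟨t, ht, rfl⟩ := mem_image.1 hy
  exact h1 s hs t ht

theorem card_inj_diff {α A : Type*} [AddCommGroup A] [DecidableEq A] (S : Finset α) (f : α → A)
    (D : Finset A) (h1 : ∀ s ∈ S, ∀ s' ∈ S, f s - f s' ∈ D)
    (h2 : ∀ s ∈ S, ∀ s' ∈ S, f s = f s' → s = s') : #S ≤ #D := by
  simpa using card_le_diff S f D 1 h1 fun b => card_le_one.2 fun s hs t ht =>
    h2 s (mem_filter.1 hs).1 t (mem_filter.1 ht).1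
      ((mem_filter.1 hs).2.trans (mem_filter.1 ht).2.symm)

/-- A binary linear form. -/
def e1 (a : Fin 2 → ℤ) (Y Z : ℤ) : ℤ := a 0 * Y + a 1 * Z

/-- A binary quadratic form. -/
def e2 (q : Fin 3 → ℤ) (Y Z : ℤ) : ℤ := q 0 * Y ^ 2 + q 1 * Y * Z + q 2 * Z ^ 2

/-- A binary cubic form. -/
def e3 (c : Fin 4 → ℤ) (Y Z : ℤ) : ℤ :=
  c 0 * Y ^ 3 + c 1 * Y ^ 2 * Z + c 2 * Y * Z ^ 2 + c 3 * Z ^ 3

/-- A ternary cubic form. -/
def ev (a : Fin 10 → ℤ) (x y z : ℤ) : ℤ :=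
  a 0 * x ^ 3 + a 1 * x ^ 2 * y + a 2 * x ^ 2 * z + a 3 * x * y ^ 2 + a 4 * x * y * z +
    a 5 * x * z ^ 2 + a 6 * y ^ 3 + a 7 * y ^ 2 * z + a 8 * y * z ^ 2 + a 9 * z ^ 3

/-- No rational root. -/
def An2 (q : Fin 3 → ℤ) : Prop := ∀ y z, e2 q y z = 0 → y = 0 ∧ z = 0

/-- No rational root. -/
def An3 (c : Fin 4 → ℤ) : Prop := ∀ y z, e3 c y z = 0 → y = 0 ∧ z = 0

/-- The part of a ternary cubic free of the first variable. -/
def cP (a : Fin 10 → ℤ) : Fin 4 → ℤ := ![a 6, a 7, a 8, a 9]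

open Classical in
/-- Cubic forms without rational root. -/
noncomputable def U3 (H : ℕ) : Finset (Fin 4 → ℤ) := {c ∈ Bx 4 H | An3 c}

/-- Linear forms with a congruence condition. -/
noncomputable def Lr (H : ℕ) (X Y Z : ℤ) : Finset (Fin 2 → ℤ) := {a ∈ Bx 2 (4 * H) | X ∣ e1 a Y Z}

/-- Quadratic forms with a congruence condition. -/
noncomputable def Lq (H : ℕ) (X Y Z : ℤ) : Finset (Fin 3 → ℤ) := {q ∈ Bx 3 (2 * H) | X ∣ e2 q Y Z}

/-- Cubic forms with a congruence condition. -/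
noncomputable def Lc (H : ℕ) (X Y Z : ℤ) : Finset (Fin 4 → ℤ) := {c ∈ U3 H | X ∣ e3 c Y Z}

open Classical in
/-- Ternary cubics through a point. -/
noncomputable def Nx (H : ℕ) (X Y Z : ℤ) : Finset (Fin 10 → ℤ) :=
  {a ∈ Bx 10 H | An3 (cP a) ∧ ev a X Y Z = 0}

theorem mem_Lc {H : ℕ} {X Y Z : ℤ} {c : Fin 4 → ℤ} :
    c ∈ Lc H X Y Z ↔ c ∈ Bx 4 H ∧ An3 c ∧ X ∣ e3 c Y Z := by
  simp only [Lc, U3, mem_filter, and_assoc]

theorem mem_Lr {H : ℕ} {X Y Z a b : ℤ} (ha : |a| ≤ 4 * H) (hb : |b| ≤ 4 * H)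
    (h : X ∣ a * Y + b * Z) : ![a, b] ∈ Lr H X Y Z :=
  mem_filter.2 ⟨mem_Bx.2 (by simp [Fin.forall_fin_two, ha, hb]), h⟩

theorem card_Nx {H : ℕ} {X Y Z : ℤ} (hX : X ≠ 0) :
    #(Nx H X Y Z) ≤ #(Lr H X Y Z) * #(Lq H X Y Z) * #(Lc H X Y Z) := by
  classical
  refine card_le_mul_card_image_of_maps_to (f := cP) (fun a ha => ?_) _ fun c _ => ?_
  · obtain ⟨h1, h2, h3⟩ := mem_filter.1 ha
    refine mem_Lc.2 ⟨mem_Bx.2 fun i => ?_, h2, -(X * (a 0 * X + a 1 * Y + a 2 * Z) +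
      a 3 * Y ^ 2 + a 4 * Y * Z + a 5 * Z ^ 2), ?_⟩
    · fin_cases i <;> exact mem_Bx.1 h1 _
    · simp only [ev] at h3
      simp [e3, cP]
      linear_combination h3
  have hc : ∀ a ∈ {a ∈ Nx H X Y Z | cP a = c}, a ∈ Bx 10 H ∧ ev a X Y Z = 0 ∧ a 6 = c 0 ∧
      a 7 = c 1 ∧ a 8 = c 2 ∧ a 9 = c 3 := fun a ha => by
    obtain ⟨h1, rfl⟩ := mem_filter.1 ha
    obtain ⟨h1, -, h3⟩ := mem_filter.1 h1
    exact ⟨h1, h3, rfl, rfl, rfl, rfl⟩
  refine card_le_diff _ (fun a => ![a 3, a 4, a 5]) _ _ (fun a ha b hb => ?_) fun q => ?_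
  · obtain ⟨a1, a2, a6, a7, a8, a9⟩ := hc a ha
    obtain ⟨b1, b2, b6, b7, b8, b9⟩ := hc b hb
    refine mem_filter.2 ⟨mem_Bx.2 fun i => ?_, -((a 0 - b 0) * X + (a 1 - b 1) * Y +
      (a 2 - b 2) * Z), mul_left_cancel₀ hX ?_⟩
    · push_cast
      fin_cases i <;> exact sub_Bx a1 b1 _
    · simp only [ev, a6, a7, a8, a9, b6, b7, b8, b9] at a2 b2
      simp [e2, -mul_eq_mul_left_iff]
      linear_combination a2 - b2
  have hq : ∀ a ∈ {a ∈ {a ∈ Nx H X Y Z | cP a = c} | ![a 3, a 4, a 5] = q}, a ∈ Bx 10 H ∧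
      (a 3 = q 0 ∧ a 4 = q 1 ∧ a 5 = q 2 ∧ a 6 = c 0 ∧ a 7 = c 1 ∧ a 8 = c 2 ∧ a 9 = c 3) ∧
      X ^ 2 * (a 0 * X + a 1 * Y + a 2 * Z) + X * e2 q Y Z + e3 c Y Z = 0 := fun a ha => by
    obtain ⟨h1, rfl⟩ := mem_filter.1 ha
    obtain ⟨a1, a2, a6, a7, a8, a9⟩ := hc a h1
    refine ⟨a1, ⟨rfl, rfl, rfl, a6, a7, a8, a9⟩, ?_⟩
    simp only [ev, a6, a7, a8, a9] at a2
    simp [e2, e3]
    linear_combination a2
  refine card_inj_diff _ (fun a => ![a 1, a 2]) _ (fun a ha b hb => ?_) fun a ha b hb e => ?_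
  · obtain ⟨a1, -, a2⟩ := hq a ha
    obtain ⟨b1, -, b2⟩ := hq b hb
    have e : ![a 1, a 2] - ![b 1, b 2] = ![a 1 - b 1, a 2 - b 2] := by simp
    rw [e]
    refine mem_Lr (by have := sub_Bx a1 b1 1; omega) (by have := sub_Bx a1 b1 2; omega)
      ⟨b 0 - a 0, mul_left_cancel₀ (pow_ne_zero 2 hX) ?_⟩
    linear_combination a2 - b2
  · obtain ⟨-, ⟨a3, a4, a5, a6, a7, a8, a9⟩, a2⟩ := hq a ha
    obtain ⟨-, ⟨b3, b4, b5, b6, b7, b8, b9⟩, b2⟩ := hq b hb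
    have e1 : a 1 = b 1 := congrFun e 0
    have e2 : a 2 = b 2 := congrFun e 1
    have e0 : a 0 = b 0 := mul_left_cancel₀ (pow_ne_zero 3 hX) (by
      rw [e1, e2] at a2
      linear_combination a2 - b2)
    funext i
    fin_cases i
    exacts [e0, e1, e2, a3.trans b3.symm, a4.trans b4.symm, a5.trans b5.symm, a6.trans b6.symm,
      a7.trans b7.symm, a8.trans b8.symm, a9.trans b9.symm]

theorem card_Lq {H : ℕ} {X Y Z : ℤ} (hc : IsCoprime X Z) :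
    #(Lq H X Y Z) ≤ #(Lr H X Y Z) * (4 * H + 1) := by
  refine (card_le_mul_card_image_of_maps_to (f := fun q => q 0) (t := I (2 * H))
    (fun q hq => mem_I.2 (mem_Bx.1 (mem_filter.1 hq).1 0)) #(Lr H X Y Z) fun k _ => ?_).trans
    (by rw [card_I, ← mul_assoc 2 2 H]; exact le_rfl)
  refine card_inj_diff _ (fun a => ![a 1, a 2]) _ (fun a ha b hb => ?_) fun a ha b hb e => ?_
  · obtain ⟨a1, a2⟩ := mem_filter.1 ha
    obtain ⟨b1, b2⟩ := mem_filter.1 hb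
    obtain ⟨a1, a3⟩ := mem_filter.1 a1
    obtain ⟨b1, b3⟩ := mem_filter.1 b1
    have e : ![a 1, a 2] - ![b 1, b 2] = ![a 1 - b 1, a 2 - b 2] := by simp
    rw [e]
    refine mem_Lr (by have := sub_Bx a1 b1 1; omega) (by have := sub_Bx a1 b1 2; omega)
      (hc.dvd_of_dvd_mul_left ?_)
    convert a3.sub b3 using 1
    simp only [e2, a2, b2]
    ring
  · funext i
    fin_cases i
    exacts [(mem_filter.1 ha).2.trans (mem_filter.1 hb).2.symm, congrFun e 0, congrFun e 1]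

theorem card_Lc {H : ℕ} {X Y Z : ℤ} (hc : IsCoprime X Z) :
    #(Lc H X Y Z) ≤ #(Lr H X Y Z) * (2 * H + 1) ^ 2 := by
  refine (card_le_mul_card_image_of_maps_to (f := fun c => ![c 0, c 1]) (t := Bx 2 H)
    (fun c h => mem_Bx.2 fun i => ?_) _ fun k _ => ?_).trans (by rw [card_Bx])
  · fin_cases i <;> exact mem_Bx.1 (mem_Lc.1 h).1 _
  have hk : ∀ a ∈ {a ∈ Lc H X Y Z | ![a 0, a 1] = k}, a ∈ Bx 4 H ∧ X ∣ e3 a Y Z ∧ a 0 = k 0 ∧
      a 1 = k 1 := fun a ha => by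
    obtain ⟨h1, rfl⟩ := mem_filter.1 ha
    exact ⟨(mem_Lc.1 h1).1, (mem_Lc.1 h1).2.2, rfl, rfl⟩
  refine card_inj_diff _ (fun a => ![a 2, a 3]) _ (fun a ha b hb => ?_) fun a ha b hb e => ?_
  · obtain ⟨a1, a2, a3, a4⟩ := hk a ha
    obtain ⟨b1, b2, b3, b4⟩ := hk b hb
    have e : ![a 2, a 3] - ![b 2, b 3] = ![a 2 - b 2, a 3 - b 3] := by simp
    rw [e]
    refine mem_Lr (by have := sub_Bx a1 b1 2; omega) (by have := sub_Bx a1 b1 3; omega)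
      ((hc.pow_right (n := 2)).dvd_of_dvd_mul_left ?_)
    convert a2.sub b2 using 1
    simp only [e3, a3, a4, b3, b4]
    ring
  · obtain ⟨-, -, a3, a4⟩ := hk a ha
    obtain ⟨-, -, b3, b4⟩ := hk b hb
    funext i
    fin_cases i
    exacts [a3.trans b3.symm, a4.trans b4.symm, congrFun e 0, congrFun e 1]

/-- The weight of a short linear relation. -/
noncomputable def wt (t : ℤ × ℤ × ℤ) : ℝ := 1 / (t.1 ^ 2 * (|(t.2.1 : ℝ)| + 1) * (|(t.2.2 : ℝ)| + 1))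

open Classical in
/-- Short linear relations, written as a multiple of a primitive one. -/
noncomputable def Tr (H : ℕ) : Finset (ℤ × ℤ × ℤ) :=
  {t ∈ I (8 * H) ×ˢ I (8 * H) ×ˢ I (8 * H) | 0 < t.1 ∧ ∃ u v, u * t.2.1 + v * t.2.2 = 1}

theorem Lr_bound {H : ℕ} {X Y Z : ℤ} (hX : 0 < X) (hc : IsCoprime X Z) :
    #(Lr H X Y Z) ≤ 1 ∨ ∃ t ∈ Tr H, X ∣ t.1 * (t.2.1 * Y + t.2.2 * Z) ∧
      (#(Lr H X Y Z) : ℝ) ^ 2 ≤ 2 ^ 17 * H ^ 4 / X ^ 2 + 2 ^ 11 * H ^ 2 * wt t := by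
  refine (lat (Lr H X Y Z) id (fun a b => a 0 * b 1 - a 1 * b 0) 1 (fun _ _ _ => rfl)
    (fun a s t => by simp; ring) (fun a b h i j => ?_) fun s _ => card_le_one.2 fun a ha b hb =>
      (mem_filter.1 ha).2.trans (mem_filter.1 hb).2.symm).imp_right ?_
  · fin_cases i <;> fin_cases j <;> simp only [id, Fin.zero_eta, Fin.mk_one] <;> linarith
  rintro ⟨s, hs, s', hs', μ, hμ, ⟨j, hj⟩, h1, h2⟩
  simp only [id] at hj h1 h2
  classical
  obtain ⟨a1, a2⟩ := mem_filter.1 hs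
  obtain ⟨b1, b2⟩ := mem_filter.1 hs'
  have hl : X ∣ (s - s') 0 * Y + (s - s') 1 * Z := by
    rw [show (s - s') 0 * Y + (s - s') 1 * Z = e1 s Y Z - e1 s' Y Z by simp [e1]; ring]
    exact a2.sub b2
  have hμ8 : μ ≤ 8 * H := by
    have := sub_Bx a1 b1 j
    rw [← hj, Pi.sub_apply]
    omega
  generalize s - s' = l at *
  have h3 := h2 X (8 * H * μ) (4 * H) hX (by positivity) (by positivity) (fun t ht => ?_)
    fun t ht i => by simpa using mem_Bx.1 (mem_filter.1 ht).1 i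
  swap
  · obtain ⟨c1, c2⟩ := mem_filter.1 ht
    refine ⟨hc.dvd_of_dvd_mul_left ?_, ?_⟩
    · convert (c2.mul_left (l 0)).sub (hl.mul_left (t 0)) using 1
      simp only [e1]
      ring
    · have d1 := mul_le_mul (h1 0) (mem_Bx.1 c1 1) (abs_nonneg _) hμ.le
      have d2 := mul_le_mul (h1 1) (mem_Bx.1 c1 0) (abs_nonneg _) hμ.le
      rw [← abs_mul] at d1 d2
      refine (abs_sub _ _).trans ?_
      push_cast at d1 d2
      linarith
  obtain ⟨g, a, b, c, u, v, w, hg, ea, eb, ec, e⟩ := prim (l 0) (l 1) 0 (by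
    rintro ⟨c1, c2, -⟩
    fin_cases j <;> simp_all)
  have hc0 : c = 0 := by simpa [hg.ne'] using ec
  rw [hc0, mul_zero, add_zero] at e
  have k0 := h1 0
  have k1 := h1 1
  rw [ea, abs_mul, abs_of_pos hg] at k0
  rw [eb, abs_mul, abs_of_pos hg] at k1
  have n0 := abs_nonneg a
  have n1 := abs_nonneg b
  have hgμ : g ≤ μ := by
    by_cases ha : a = 0
    · have : b ≠ 0 := by rintro rfl; simp [ha] at e
      have := abs_pos.2 this
      nlinarith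
    · have := abs_pos.2 ha
      nlinarith
  refine ⟨(g, a, b), mem_filter.2 ⟨?_, hg, u, v, e⟩, by rw [ea, eb] at hl; convert hl using 1; ring,
    ?_⟩
  · simp only [mem_product, mem_I, abs_of_pos hg]
    push_cast
    exact ⟨by omega, by nlinarith, by nlinarith⟩
  have r1 : (g : ℝ) * (|(a : ℝ)| + 1) ≤ 2 * μ := by
    exact_mod_cast (by linarith : g * (|a| + 1) ≤ 2 * μ)
  have r2 : (g : ℝ) * (|(b : ℝ)| + 1) ≤ 2 * μ := by
    exact_mod_cast (by linarith : g * (|b| + 1) ≤ 2 * μ)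
  have r3 : (0 : ℝ) < g := by exact_mod_cast hg
  have r4 : (0 : ℝ) < μ := by exact_mod_cast hμ
  have r5 : (0 : ℝ) < X := by exact_mod_cast hX
  have r6 : (μ : ℝ) ≤ 8 * H := by exact_mod_cast hμ8
  have r7 : (1 / μ : ℝ) ^ 2 ≤ 4 * wt (g, a, b) := by
    rw [wt, mul_one_div, div_pow, div_le_div_iff₀ (by positivity) (by positivity)]
    have := mul_le_mul r1 r2 (by positivity) (by positivity)
    simp only
    nlinarith
  have r8 : (#(Lr H X Y Z) : ℝ) ≤ 256 * (H ^ 2 / X) + 16 * H * (1 / μ) := by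
    refine h3.trans ?_
    push_cast
    have t1 : (1 : ℝ) ≤ 8 * H * (1 / μ) := by rw [mul_one_div, le_div_iff₀ r4]; linarith
    have t2 : 16 * H * μ / X ≤ 128 * ((H : ℝ) ^ 2 / X) := by
      rw [← mul_div_assoc]
      exact div_le_div_of_nonneg_right (by nlinarith) r5.le
    have t3 : (2 * (8 * H * μ) / X + 1) * (2 * (4 * H) / μ + 1) =
        128 * ((H : ℝ) ^ 2 / X) + 16 * H * μ / X + 8 * H * (1 / μ) + 1 := by
      field_simp
      ring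
    linarith
  have r9 : (2 : ℝ) ^ 17 * H ^ 4 / X ^ 2 = 2 ^ 17 * (H ^ 2 / X) ^ 2 := by
    rw [div_pow, ← pow_mul, mul_div_assoc]
  rw [r9]
  have := pow_le_pow_left₀ (Nat.cast_nonneg _) r8 2
  have := mul_le_mul_of_nonneg_left r7 (sq_nonneg (H : ℝ))
  nlinarith [sq_nonneg (256 * ((H : ℝ) ^ 2 / X) - 16 * H * (1 / μ))]

end Pool.Agent.Lib.MP_65b7ad_nt
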