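import Pool.Agent.Lib.MP_65b7ad_nt.B

/-! Cubic forms modulo the multiples of a quadratic form without rational root. -/

namespace Pool.Agent.Lib.MP_65b7ad_nt

open Finset

/-- The vector orthogonal to `q Y`, `q Z` and `d`. -/
def wv (q : Fin 3 → ℤ) (d : Fin 4 → ℤ) : Fin 4 → ℤ :=
  ![q 0 * q 2 * d 3 - q 1 * q 1 * d 3 + q 1 * q 2 * d 2 - q 2 * q 2 * d 1,
    q 0 * q 1 * d 3 - q 0 * q 2 * d 2 + q 2 * q 2 * d 0,
    -(q 0 * q 0 * d 3) + q 0 * q 2 * d 1 - q 1 * q 2 * d 0,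
    q 0 * q 0 * d 2 - q 0 * q 1 * d 1 - q 0 * q 2 * d 0 + q 1 * q 1 * d 0]

/-- The determinant of `q Y`, `q Z`, `d`, `s`. -/
def Dt (q : Fin 3 → ℤ) (d s : Fin 4 → ℤ) : ℤ :=
  wv q d 0 * s 0 + wv q d 1 * s 1 + wv q d 2 * s 2 + wv q d 3 * s 3

/-- The resultant, up to sign. -/
def rho (q : Fin 3 → ℤ) (d : Fin 4 → ℤ) : ℤ :=
  -q 0 ^ 3 * d 3 ^ 2 + q 0 ^ 2 * q 1 * d 2 * d 3 + 2 * q 0 ^ 2 * q 2 * d 1 * d 3 -
    q 0 ^ 2 * q 2 * d 2 ^ 2 - q 0 * q 1 ^ 2 * d 1 * d 3 - 3 * q 0 * q 1 * q 2 * d 0 * d 3 +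
    q 0 * q 1 * q 2 * d 1 * d 2 + 2 * q 0 * q 2 ^ 2 * d 0 * d 2 - q 0 * q 2 ^ 2 * d 1 ^ 2 +
    q 1 ^ 3 * d 0 * d 3 - q 1 ^ 2 * q 2 * d 0 * d 2 + q 1 * q 2 ^ 2 * d 0 * d 1 - q 2 ^ 3 * d 0 ^ 2

theorem wv0 (q d) : wv q d 0 =
    q 0 * q 2 * d 3 - q 1 * q 1 * d 3 + q 1 * q 2 * d 2 - q 2 * q 2 * d 1 := rfl
theorem wv1 (q d) : wv q d 1 = q 0 * q 1 * d 3 - q 0 * q 2 * d 2 + q 2 * q 2 * d 0 := rfl
theorem wv2 (q d) : wv q d 2 = -(q 0 * q 0 * d 3) + q 0 * q 2 * d 1 - q 1 * q 2 * d 0 := rfl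
theorem wv3 (q d) : wv q d 3 =
    q 0 * q 0 * d 2 - q 0 * q 1 * d 1 - q 0 * q 2 * d 0 + q 1 * q 1 * d 0 := rfl

theorem wv_sub (q a b) (i : Fin 4) : wv q (a - b) i = wv q a i - wv q b i := by
  revert i
  simp only [Fin.forall_fin_succ, wv, Matrix.cons_val_zero, Matrix.cons_val_succ, Pi.sub_apply,
    IsEmpty.forall_iff, and_true]
  refine ⟨?_, ?_, ?_, ?_⟩ <;> ring

theorem wv_par (q a b) (h : Dt q a b = 0) (i j : Fin 4) :
    wv q a i * wv q b j = wv q a j * wv q b i := by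
  simp only [Dt, wv0, wv1, wv2, wv3] at h
  have k01 : wv q a 0 * wv q b 1 = wv q a 1 * wv q b 0 := by
    simp only [wv0, wv1]; linear_combination q 2 ^ 2 * h
  have k02 : wv q a 0 * wv q b 2 = wv q a 2 * wv q b 0 := by
    simp only [wv0, wv2]; linear_combination -(q 1 * q 2) * h
  have k03 : wv q a 0 * wv q b 3 = wv q a 3 * wv q b 0 := by
    simp only [wv0, wv3]; linear_combination (q 1 ^ 2 - q 0 * q 2) * h
  have k12 : wv q a 1 * wv q b 2 = wv q a 2 * wv q b 1 := by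
    simp only [wv1, wv2]; linear_combination q 0 * q 2 * h
  have k13 : wv q a 1 * wv q b 3 = wv q a 3 * wv q b 1 := by
    simp only [wv1, wv3]; linear_combination -(q 0 * q 1) * h
  have k23 : wv q a 2 * wv q b 3 = wv q a 3 * wv q b 2 := by
    simp only [wv2, wv3]; linear_combination q 0 ^ 2 * h
  fin_cases i <;> fin_cases j
  exacts [rfl, k01, k02, k03, k01.symm, rfl, k12, k13, k02.symm, k12.symm, rfl, k23, k03.symm,
    k13.symm, k23.symm, rfl]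

theorem wv_le {q d} {Q E : ℤ} (hq : ∀ i, |q i| ≤ Q) (hd : ∀ i, |d i| ≤ E) (i : Fin 4) :
    |wv q d i| ≤ 4 * (Q * Q * E) := by
  have hQ := (abs_nonneg _).trans (hq 0)
  have t : ∀ i j k, -(Q * Q * E) ≤ q i * q j * d k ∧ q i * q j * d k ≤ Q * Q * E := fun i j k => by
    rw [← abs_le, abs_mul, abs_mul]
    gcongr
    exacts [hq i, hq j, hd k]
  revert i
  simp only [Fin.forall_fin_succ, wv, Matrix.cons_val_zero, Matrix.cons_val_succ,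
    IsEmpty.forall_iff, and_true, abs_le]
  have := t 0 2 3; have := t 1 1 3; have := t 1 2 2; have := t 2 2 1; have := t 0 1 3
  have := t 0 2 2; have := t 2 2 0; have := t 0 0 3; have := t 0 2 1; have := t 1 2 0
  have := t 0 0 2; have := t 0 1 1; have := t 0 2 0; have := t 1 1 0
  omega

theorem dvd_Dt {q d s} {X Y Z : ℤ} (hc : IsCoprime X Z) (hq : X ∣ e2 q Y Z) (hd : X ∣ e3 d Y Z)
    (hs : X ∣ e3 s Y Z) : X ∣ Dt q d s := by
  refine (hc.pow_right (n := 3)).dvd_of_dvd_mul_left ?_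
  have e : Z ^ 3 * Dt q d s = (q 0 * d 0 * s 2 * Y + q 0 * d 1 * s 2 * Z - q 0 * d 2 * s 0 * Y -
      q 0 * d 2 * s 1 * Z - q 1 * d 0 * s 1 * Y - q 1 * d 0 * s 2 * Z + q 1 * d 1 * s 0 * Y +
      q 1 * d 2 * s 0 * Z + q 2 * d 0 * s 1 * Z - q 2 * d 1 * s 0 * Z) * e2 q Y Z +
      (-q 0 ^ 2 * s 2 + q 0 * q 1 * s 1 + q 0 * q 2 * s 0 - q 1 ^ 2 * s 0) * e3 d Y Z +
      wv q d 3 * e3 s Y Z := by
    simp only [Dt, wv0, wv1, wv2, wv3, e2, e3]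
    ring
  rw [e]
  exact ((hq.mul_left _).add (hd.mul_left _)).add (hs.mul_left _)

theorem dvd_rho {q d} {X Y Z : ℤ} (hc : IsCoprime X Z) (hq : X ∣ e2 q Y Z) (hd : X ∣ e3 d Y Z) :
    X ∣ rho q d := by
  refine (hc.pow_right (n := 4)).dvd_of_dvd_mul_left ?_
  have e : Z ^ 4 * rho q d = -(q 0 ^ 2 * d 0 * d 2 * Y ^ 2 - q 0 ^ 2 * d 0 * d 3 * Y * Z +
      q 0 ^ 2 * d 1 * d 2 * Y * Z - q 0 ^ 2 * d 1 * d 3 * Z ^ 2 + q 0 ^ 2 * d 2 ^ 2 * Z ^ 2 -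
      q 0 * q 1 * d 0 * d 1 * Y ^ 2 + q 0 * q 1 * d 0 * d 3 * Z ^ 2 - q 0 * q 1 * d 1 ^ 2 * Y * Z -
      q 0 * q 1 * d 1 * d 2 * Z ^ 2 - q 0 * q 2 * d 0 ^ 2 * Y ^ 2 -
      2 * q 0 * q 2 * d 0 * d 2 * Z ^ 2 + q 0 * q 2 * d 1 ^ 2 * Z ^ 2 + q 1 ^ 2 * d 0 ^ 2 * Y ^ 2 +
      q 1 ^ 2 * d 0 * d 1 * Y * Z + q 1 ^ 2 * d 0 * d 2 * Z ^ 2 - q 1 * q 2 * d 0 ^ 2 * Y * Z -
      q 1 * q 2 * d 0 * d 1 * Z ^ 2 + q 2 ^ 2 * d 0 ^ 2 * Z ^ 2) * e2 q Y Z +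
      -(-q 0 ^ 3 * d 2 * Y + q 0 ^ 3 * d 3 * Z + q 0 ^ 2 * q 1 * d 1 * Y - q 0 ^ 2 * q 1 * d 2 * Z +
      q 0 ^ 2 * q 2 * d 0 * Y - q 0 ^ 2 * q 2 * d 1 * Z - q 0 * q 1 ^ 2 * d 0 * Y +
      q 0 * q 1 ^ 2 * d 1 * Z + 2 * q 0 * q 1 * q 2 * d 0 * Z - q 1 ^ 3 * d 0 * Z) * e3 d Y Z := by
    simp only [rho, e2, e3]
    ring
  rw [e]
  exact (hq.mul_left _).add (hd.mul_left _)

theorem rho_le {q d} {X μ : ℤ} (hq : An2 q) (hX : X ∣ rho q d) (hX0 : 0 < X) (hμ : 0 < μ)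
    {j : Fin 4} (hj : |wv q d j| = μ) (h : ∀ i, |wv q d i| ≤ μ) (i : Fin 3) :
    X * |q i| ≤ 2 * (μ * μ) := by
  have k0 : rho q d * q 0 = wv q d 1 * wv q d 3 - wv q d 2 * wv q d 2 := by
    simp only [wv1, wv2, wv3, rho]; ring
  have k1 : rho q d * q 1 = wv q d 1 * wv q d 2 - wv q d 0 * wv q d 3 := by
    simp only [wv0, wv1, wv2, wv3, rho]; ring
  have k2 : rho q d * q 2 = wv q d 0 * wv q d 2 - wv q d 1 * wv q d 1 := by
    simp only [wv0, wv1, wv2, rho]; ring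
  have o1 : q 0 * wv q d 0 + q 1 * wv q d 1 + q 2 * wv q d 2 = 0 := by
    simp only [wv0, wv1, wv2]; ring
  have o2 : q 0 * wv q d 1 + q 1 * wv q d 2 + q 2 * wv q d 3 = 0 := by
    simp only [wv1, wv2, wv3]; ring
  have h0 : rho q d ≠ 0 := fun e => by
    rw [e, zero_mul] at k0 k2
    obtain ⟨a0, a1⟩ := hq (wv q d 0) (wv q d 1) (by
      rw [e2]; linear_combination wv q d 0 * o1 + q 2 * k2)
    obtain ⟨a2, a3⟩ := hq (wv q d 2) (wv q d 3) (by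
      rw [e2]; linear_combination wv q d 3 * o2 + q 0 * k0)
    have : wv q d j = 0 := by
      fin_cases j
      exacts [a0, a1, a2, a3]
    rw [this, abs_zero] at hj
    omega
  have h1 : X ≤ |rho q d| := Int.le_of_dvd (abs_pos.2 h0) ((dvd_abs _ _).2 hX)
  have t : ∀ a b c e, |wv q d a * wv q d b - wv q d c * wv q d e| ≤ 2 * (μ * μ) := fun a b c e => by
    refine (abs_sub _ _).trans ?_
    rw [abs_mul, abs_mul, two_mul]
    gcongr <;> exact h _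
  refine (mul_le_mul_of_nonneg_right h1 (abs_nonneg _)).trans ?_
  rw [← abs_mul]
  fin_cases i
  exacts [k0 ▸ t _ _ _ _, k1 ▸ t _ _ _ _, k2 ▸ t _ _ _ _]

/-- Cubic forms that are rational multiples of `q`. -/
noncomputable def Kq (H : ℕ) (q : Fin 3 → ℤ) : Finset (Fin 4 → ℤ) := {d ∈ Bx 4 (2 * H) | wv q d = 0}

theorem Lc_bound {H D : ℕ} {X Y Z : ℤ} {q : Fin 3 → ℤ} (hH : 1 ≤ H) (hD : 1 ≤ D) (hD3 : D ≤ H ^ 3)
    (hX : (D : ℤ) ≤ X) (hc : IsCoprime X Z) (hq : q ∈ Lq H X Y Z) (ha : An2 q) :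
    (#(Lc H X Y Z) : ℝ) ≤ 600 * H ^ 4 / D * #(Kq H q) := by
  obtain ⟨hq, hq2⟩ := mem_filter.1 hq
  have rH : (1 : ℝ) ≤ H := by exact_mod_cast hH
  have rD : (0 : ℝ) < D := by exact_mod_cast hD
  have rD3 : (D : ℝ) ≤ H ^ 3 := by exact_mod_cast hD3
  have r4 : (H : ℝ) ^ 3 ≤ H ^ 4 := pow_le_pow_right₀ rH (by omega)
  have hX0 : 0 < X := by omega
  rcases lat (Lc H X Y Z) (wv q) (Dt q) #(Kq H q) (wv_sub q)
    (fun a s t => by simp only [Dt, Pi.sub_apply]; ring) (wv_par q) (fun s₀ _ =>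
      card_le_of_diff _ _ fun a ha b hb => mem_filter.2 ⟨mem_Bx.2 fun i => by
        simpa using sub_Bx (mem_Lc.1 (mem_filter.1 ha).1).1 (mem_Lc.1 (mem_filter.1 hb).1).1 i,
        funext fun i => by
          rw [wv_sub, (mem_filter.1 ha).2, (mem_filter.1 hb).2, sub_self, Pi.zero_apply]⟩) with
    h | ⟨s, hs, s', hs', μ, hμ, ⟨j, hj⟩, h1, h2⟩
  · have : (#(Lc H X Y Z) : ℝ) ≤ #(Kq H q) := by exact_mod_cast h
    refine this.trans (le_mul_of_one_le_left (Nat.cast_nonneg _) ?_)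
    rw [le_div_iff₀ rD]
    nlinarith
  obtain ⟨a1, -, a2⟩ := mem_Lc.1 hs
  obtain ⟨b1, -, b2⟩ := mem_Lc.1 hs'
  have hl : X ∣ e3 (s - s') Y Z := by
    rw [show e3 (s - s') Y Z = e3 s Y Z - e3 s' Y Z by simp only [e3, Pi.sub_apply]; ring]
    exact a2.sub b2
  obtain ⟨m, -, hm⟩ := exists_max_image univ (fun i => |q i|) univ_nonempty
  have hQ := fun i => hm i (mem_univ _)
  have k1 := rho_le ha (dvd_rho hc hq2 hl) hX0 hμ hj h1 m
  have k2 : μ ≤ 4 * (|q m| * |q m| * (2 * H)) := hj ▸ wv_le hQ (fun i => sub_Bx a1 b1 i) j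
  have k3 : |q m| ≤ 2 * H := by simpa using mem_Bx.1 hq m
  have k4 := abs_nonneg (q m)
  have h3 := h2 X (4 * (μ * H)) (4 * (|q m| * |q m| * H)) hX0 (by positivity) (by positivity)
    (fun t ht => ⟨dvd_Dt hc hq2 hl (mem_Lc.1 ht).2.2, ?_⟩)
    fun t ht => wv_le hQ (mem_Bx.1 (mem_Lc.1 ht).1)
  swap
  · have t0 : ∀ i, |wv q (s - s') i * t i| ≤ μ * H := fun i => by
      rw [abs_mul]
      exact mul_le_mul (h1 i) (mem_Bx.1 (mem_Lc.1 ht).1 i) (abs_nonneg _) hμ.le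
    have := abs_le.1 (t0 0); have := abs_le.1 (t0 1); have := abs_le.1 (t0 2)
    have := abs_le.1 (t0 3)
    rw [Dt, abs_le]
    omega
  refine h3.trans ?_
  rw [mul_comm]
  refine mul_le_mul_of_nonneg_right ?_ (Nat.cast_nonneg _)
  generalize |q m| = Q at *
  have r1 : (X : ℝ) * Q ≤ 2 * (μ * μ) := by exact_mod_cast k1
  have r2 : (μ : ℝ) ≤ 4 * (Q * Q * (2 * H)) := by exact_mod_cast k2
  have r3 : (Q : ℝ) ≤ 2 * H := by exact_mod_cast k3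
  have r5 : (0 : ℝ) ≤ Q := by exact_mod_cast k4
  have r6 : (0 : ℝ) < μ := by exact_mod_cast hμ
  have r7 : (D : ℝ) ≤ X := by exact_mod_cast hX
  have r8 : (Q : ℝ) * Q ≤ 4 * H ^ 2 := by nlinarith
  have r9 : (D : ℝ) * (Q * Q) ≤ 4 * H ^ 3 * μ := by
    refine le_of_sq_le_sq ?_ (by positivity)
    have u1 : (Q : ℝ) ^ 3 ≤ (2 * H) ^ 3 := by gcongr
    have u2 : (D : ℝ) * Q ≤ 2 * (μ * μ) := by nlinarith
    calc ((D : ℝ) * (Q * Q)) ^ 2 = ((D : ℝ) * Q) * (D * Q ^ 3) := by ring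
      _ ≤ (2 * ((μ : ℝ) * μ)) * (H ^ 3 * (2 * H) ^ 3) := by gcongr
      _ = _ := by ring
  push_cast
  have t1 : (2 * (4 * (μ * H)) / X + 1) * (2 * (4 * (Q * Q * H)) / μ + 1) =
      (64 * (Q * Q * H ^ 2) + 8 * (μ * H)) / X + 8 * H * (Q * Q) / μ + (1 : ℝ) := by
    have : (0 : ℝ) < X := by linarith
    field_simp
    ring
  have t2 : (64 * (Q * Q * H ^ 2) + 8 * (μ * H)) / X ≤ 512 * (H : ℝ) ^ 4 / D :=
    div_le_div₀ (by positivity) (by nlinarith [mul_le_mul_of_nonneg_right r8 (sq_nonneg (H : ℝ))])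
      rD r7
  have t3 : 8 * H * (Q * Q) / μ ≤ 32 * (H : ℝ) ^ 4 / D := by
    rw [div_le_div_iff₀ r6 rD]
    nlinarith
  have t4 : 1 ≤ 56 * (H : ℝ) ^ 4 / D := by
    rw [le_div_iff₀ rD]
    nlinarith
  have t5 : 600 * (H : ℝ) ^ 4 / D = 512 * H ^ 4 / D + 32 * H ^ 4 / D + 56 * H ^ 4 / D := by ring
  linarith

open Classical in
/-- Quadratic forms without rational root. -/
noncomputable def U2 (H : ℕ) : Finset (Fin 3 → ℤ) := {q ∈ Bx 3 (2 * H) | An2 q}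

theorem sum_Kq (H : ℕ) : ∑ q ∈ U2 H, #(Kq H q) ≤ #(Pairs (2 * H)) ^ 3 := by
  classical
  rw [← card_sigma]
  have hc : #(Pairs (2 * H)) ^ 3 = #(Pairs (2 * H) ×ˢ Pairs (2 * H) ×ˢ Pairs (2 * H)) := by
    simp only [card_product]; ring
  rw [hc]
  refine card_le_card_of_surjOn (fun p => ⟨![p.2.2.2 * p.1.2, p.2.2.2 * p.2.2.1, p.2.2.2 * p.2.1.2],
    ![p.1.2 * p.1.1, p.2.2.1 * p.1.1 + p.1.2 * p.2.1.1, p.2.2.1 * p.2.1.1 + p.2.1.2 * p.1.1,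
      p.2.1.2 * p.2.1.1]⟩) ?_
  rintro ⟨q, d⟩ h
  obtain ⟨h1, h2⟩ := mem_sigma.1 h
  obtain ⟨hq, ha⟩ := mem_filter.1 h1
  obtain ⟨hd, hw⟩ := mem_filter.1 h2
  simp only at hq ha hd hw
  have q0 : q 0 ≠ 0 := fun e => by simpa using (ha 1 0 (by simp [e2, e])).1
  have q2 : q 2 ≠ 0 := fun e => by simpa using (ha 0 1 (by simp [e2, e])).2
  obtain ⟨g, x, y, z, u, v, w, hg, ex, ey, ez, e⟩ := prim (q 0) (q 1) (q 2) fun e => q0 e.1
  have x0 : x ≠ 0 := by rintro rfl; simp [ex] at q0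
  have z0 : z ≠ 0 := by rintro rfl; simp [ez] at q2
  have g2 : g ^ 2 ≠ 0 := by positivity
  have w0 : x * z * d 3 - y * y * d 3 + y * z * d 2 - z * z * d 1 = 0 := mul_left_cancel₀ g2 (by
    have : wv q d 0 = 0 := congrFun hw 0
    rw [wv0, ex, ey, ez] at this; linear_combination this)
  have w1 : x * y * d 3 - x * z * d 2 + z * z * d 0 = 0 := mul_left_cancel₀ g2 (by
    have : wv q d 1 = 0 := congrFun hw 1
    rw [wv1, ex, ey, ez] at this; linear_combination this)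
  have w2 : -(x * x * d 3) + x * z * d 1 - y * z * d 0 = 0 := mul_left_cancel₀ g2 (by
    have : wv q d 2 = 0 := congrFun hw 2
    rw [wv2, ex, ey, ez] at this; linear_combination this)
  have w3 : x * x * d 2 - x * y * d 1 - x * z * d 0 + y * y * d 0 = 0 := mul_left_cancel₀ g2 (by
    have : wv q d 3 = 0 := congrFun hw 3
    rw [wv3, ex, ey, ez] at this; linear_combination this)
  obtain ⟨a, ea⟩ : x ∣ d 0 := ⟨u * (u * x + 2 * v * y + 2 * w * z) * d 0 +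
    v ^ 2 * (y * d 1 + z * d 0 - x * d 2) + 2 * v * w * (z * d 1 - x * d 3) +
    w ^ 2 * (z * d 2 - y * d 3), by
    linear_combination -(d 0) * (u * x + v * y + w * z + 1) * e + v ^ 2 * w3 - 2 * v * w * w2 +
      w ^ 2 * w1⟩
  obtain ⟨b, eb⟩ : z ∣ d 3 := ⟨w * (w * z + 2 * v * y + 2 * u * x) * d 3 +
    v ^ 2 * (x * d 3 + y * d 2 - z * d 1) + 2 * u * v * (x * d 2 - z * d 0) +
    u ^ 2 * (x * d 1 - y * d 0), by
    linear_combination -(d 3) * (u * x + v * y + w * z + 1) * e - v ^ 2 * w0 + 2 * u * v * w1 -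
      u ^ 2 * w2⟩
  have e1 : d 1 = y * a + x * b := mul_left_cancel₀ (mul_ne_zero x0 z0) (by
    rw [ea, eb] at w2; linear_combination w2)
  have e2 : d 2 = y * b + z * a := mul_left_cancel₀ (mul_ne_zero x0 z0) (by
    rw [ea, eb] at w1; linear_combination -w1)
  have b0 := mem_Bx.1 hq 0
  have b1 := mem_Bx.1 hq 1
  have b2 := mem_Bx.1 hq 2
  rw [ex, abs_mul, abs_of_pos hg] at b0
  rw [ez, abs_mul, abs_of_pos hg] at b2
  have := abs_pos.2 x0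
  have := abs_pos.2 z0
  refine ⟨((a, x), (b, z), (y, g)), mem_product.2 ⟨mem_Pairs x0 (by nlinarith) ?_, mem_product.2
    ⟨mem_Pairs z0 (by nlinarith) ?_, mem_Pairs hg.ne' (by rw [abs_of_pos hg]; nlinarith) ?_⟩⟩, ?_⟩
  · rw [mul_comm, ← ea]; exact mem_Bx.1 hd 0
  · rw [mul_comm, ← eb]; exact mem_Bx.1 hd 3
  · rw [mul_comm, ← ey]; exact b1
  · simp only [← ex, ← ey, ← ez, ← ea, ← eb, ← e1, ← e2]
    congr 1 <;> funext i <;> fin_cases i <;> rfl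

theorem card_root {α β : Type*} [DecidableEq β] {T N : ℕ} (h : Dv T N) (S : Finset α)
    (t : Finset β) (key : α → β) (u v : β → ℤ) (P : α → ℤ → ℤ → Prop) (h1 : ∀ s ∈ S, key s ∈ t)
    (h2 : ∀ s ∈ S, u (key s) ≠ 0 ∧ |u (key s)| ≤ N ∧ v (key s) ≠ 0 ∧ |v (key s)| ≤ N ∧
      ∃ y z, y ∣ u (key s) ∧ z ∣ v (key s) ∧ P s y z)
    (h3 : ∀ s ∈ S, ∀ s' ∈ S, ∀ y z, y ≠ 0 → z ≠ 0 → key s = key s' → P s y z → P s' y z → s = s') :
    #S ≤ 4 * T ^ 2 * #t := by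
  classical
  refine card_le_mul_card_image_of_maps_to h1 _ fun b _ => ?_
  rcases ({s ∈ S | key s = b}).eq_empty_or_nonempty with e | ⟨s₀, hs₀⟩
  · simp [e]
  obtain ⟨a1, rfl⟩ := mem_filter.1 hs₀
  obtain ⟨u0, uN, v0, vN, -⟩ := h2 s₀ a1
  choose! y z hy hz hP using fun s hs => (h2 s hs).2.2.2.2
  have := card_le_card_of_injOn (s := {s ∈ S | key s = key s₀})
    (t := {y ∈ I N | y ∣ u (key s₀)} ×ˢ {z ∈ I N | z ∣ v (key s₀)}) (fun s => (y s, z s))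
    (fun s hs => by
      obtain ⟨b1, b2⟩ := mem_filter.1 hs
      have c1 := b2 ▸ hy s b1
      have c2 := b2 ▸ hz s b1
      exact mem_product.2 ⟨mem_filter.2 ⟨mem_I.2 ((Int.le_of_dvd (abs_pos.2 u0)
        ((abs_dvd_abs _ _).2 c1)).trans uN), c1⟩, mem_filter.2 ⟨mem_I.2 ((Int.le_of_dvd
        (abs_pos.2 v0) ((abs_dvd_abs _ _).2 c2)).trans vN), c2⟩⟩)
    fun s hs s' hs' e => by
      obtain ⟨b1, b2⟩ := mem_filter.1 hs
      obtain ⟨c1, c2⟩ := mem_filter.1 hs'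
      obtain ⟨e1, e2⟩ := Prod.ext_iff.1 e
      exact h3 s b1 s' c1 _ _ (ne_zero_of_dvd_ne_zero u0 (b2 ▸ hy s b1))
        (ne_zero_of_dvd_ne_zero v0 (b2 ▸ hz s b1)) (b2.trans c2.symm) (hP s b1)
        (by rw [show y s = y s' from e1, show z s = z s' from e2]; exact hP s' c1)
  rw [card_product] at this
  have k1 := h.all u0 uN {y ∈ I N | y ∣ u (key s₀)} fun x hx => (mem_filter.1 hx).2
  have k2 := h.all v0 vN {y ∈ I N | y ∣ v (key s₀)} fun x hx => (mem_filter.1 hx).2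
  exact this.trans ((Nat.mul_le_mul k1 k2).trans_eq (by ring))

theorem prim2 {y z : ℤ} (h : ¬ (y = 0 ∧ z = 0)) :
    ∃ g a b : ℤ, 0 < g ∧ y = g * a ∧ z = g * b ∧ IsCoprime a b := by
  obtain ⟨g, a, b, c, u, v, w, hg, ea, eb, ec, e⟩ := prim y z 0 fun e => h ⟨e.1, e.2.1⟩
  have hc0 : c = 0 := by simpa [hg.ne'] using ec
  exact ⟨g, a, b, hg, ea, eb, u, v, by simpa [hc0] using e⟩

theorem root2 {q : Fin 3 → ℤ} {y z : ℤ} (h : IsCoprime y z) (e : e2 q y z = 0) :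
    y ∣ q 2 ∧ z ∣ q 0 :=
  ⟨(h.pow_right (n := 2)).dvd_of_dvd_mul_left ⟨-(q 0 * y + q 1 * z), by
    rw [e2] at e; linear_combination e⟩, (h.symm.pow_right (n := 2)).dvd_of_dvd_mul_left
    ⟨-(q 1 * y + q 2 * z), by rw [e2] at e; linear_combination e⟩⟩

theorem card_zero {n H : ℕ} (i : Fin (n + 1)) :
    #{a ∈ Bx (n + 1) H | a i = 0} ≤ (2 * H + 1) ^ n := by
  rw [← card_Bx]
  refine card_le_card_of_injOn (fun a j => a (i.succAbove j))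
    (fun a ha => mem_Bx.2 fun j => mem_Bx.1 (mem_filter.1 ha).1 _) fun a ha b hb e => ?_
  funext j
  refine i.succAboveCases ?_ (fun j => congrFun e j) j
  rw [(mem_filter.1 ha).2, (mem_filter.1 hb).2]

open Classical in
/-- Quadratic forms with a rational root. -/
noncomputable def V2 (H : ℕ) : Finset (Fin 3 → ℤ) := {q ∈ Bx 3 (2 * H) | q 0 ≠ 0 ∧ ¬ An2 q}

theorem card_V2 {T N H : ℕ} (h : Dv T N) (hN : 2 * H ≤ N) :
    #(V2 H) ≤ (4 * H + 1) ^ 2 * (1 + 4 * T ^ 2) := by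
  classical
  have h1 := card_zero (n := 2) (H := 2 * H) 2
  have h2 := card_root h {q ∈ V2 H | ¬ q 2 = 0} (Bx 2 (2 * H)) (fun q => ![q 0, q 2])
    (fun k => k 1) (fun k => k 0) (fun q y z => e2 q y z = 0) (fun q hq => mem_Bx.2 fun i => by
      fin_cases i <;> exact mem_Bx.1 (mem_filter.1 (mem_filter.1 hq).1).1 _) (fun q hq => by
      obtain ⟨a1, a2⟩ := mem_filter.1 hq
      obtain ⟨a1, a3, a4⟩ := mem_filter.1 a1
      have hb := fun i => (mem_Bx.1 a1 i).trans (Int.ofNat_le.2 hN)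
      refine ⟨a2, hb 2, a3, hb 0, ?_⟩
      simp only [An2, not_forall] at a4
      obtain ⟨y, z, e, h0⟩ := a4
      obtain ⟨g, a, b, hg, rfl, rfl, hc⟩ := prim2 h0
      have e' : e2 q a b = 0 := mul_left_cancel₀ (pow_ne_zero 2 hg.ne') (by
        simp only [e2] at e ⊢; linear_combination e)
      exact ⟨a, b, (root2 hc e').1, (root2 hc e').2, e'⟩)
    fun q _ r _ y z y0 z0 e a b => by
      have e0 : q 0 = r 0 := congrFun e 0
      have e2' : q 2 = r 2 := congrFun e 1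
      have e1 : q 1 = r 1 := mul_left_cancel₀ (mul_ne_zero y0 z0) (by
        simp only [e2, e0, e2'] at a b; linear_combination a - b)
      funext i
      fin_cases i
      exacts [e0, e1, e2']
  have h3 : #{q ∈ V2 H | q 2 = 0} ≤ #{a ∈ Bx 3 (2 * H) | a 2 = 0} :=
    card_le_card (filter_subset_filter _ (filter_subset _ _))
  have := card_filter_add_card_filter_not (s := V2 H) fun q => q 2 = 0
  rw [card_Bx] at h2
  rw [← mul_assoc] at h1 h2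
  nlinarith

open Classical in
theorem card_V3 {T N H : ℕ} (h : Dv T N) (hN : H ≤ N) :
    #{c ∈ Bx 4 H | ¬ An3 c} ≤ (2 * H + 1) ^ 3 * (2 + 4 * T ^ 2) := by
  have h0 := card_zero (n := 3) (H := H) 0
  have h1 := card_zero (n := 3) (H := H) 3
  have h2 := card_root h {c ∈ Bx 4 H | ¬ An3 c ∧ c 0 ≠ 0 ∧ c 3 ≠ 0} (Bx 3 H)
    (fun c => ![c 0, c 3, c 1])
    (fun k => k 1) (fun k => k 0) (fun c y z => e3 c y z = 0) (fun q hq => mem_Bx.2 fun i => by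
      fin_cases i <;> exact mem_Bx.1 (mem_filter.1 hq).1 _) (fun q hq => by
      obtain ⟨a1, a4, a3, a2⟩ := mem_filter.1 hq
      have hb := fun i => (mem_Bx.1 a1 i).trans (Int.ofNat_le.2 hN)
      refine ⟨a2, hb 3, a3, hb 0, ?_⟩
      simp only [An3, not_forall] at a4
      obtain ⟨y, z, e, h0⟩ := a4
      obtain ⟨g, a, b, hg, rfl, rfl, hc⟩ := prim2 h0
      have e' : e3 q a b = 0 := mul_left_cancel₀ (pow_ne_zero 3 hg.ne') (by
        simp only [e3] at e ⊢; linear_combination e)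
      exact ⟨a, b, (hc.pow_right (n := 3)).dvd_of_dvd_mul_left
        ⟨-(q 0 * a ^ 2 + q 1 * a * b + q 2 * b ^ 2), by
          rw [e3] at e'; show b ^ 3 * q 3 = _; linear_combination e'⟩,
        (hc.symm.pow_right (n := 3)).dvd_of_dvd_mul_left
        ⟨-(q 1 * a ^ 2 + q 2 * a * b + q 3 * b ^ 2), by
          rw [e3] at e'; show a ^ 3 * q 0 = _; linear_combination e'⟩, e'⟩)
    fun q _ r _ y z y0 z0 e a b => by
      have e0 : q 0 = r 0 := congrFun e 0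
      have e3' : q 3 = r 3 := congrFun e 1
      have e1 : q 1 = r 1 := congrFun e 2
      have e2 : q 2 = r 2 := mul_left_cancel₀ (mul_ne_zero y0 (pow_ne_zero 2 z0)) (by
        simp only [e3, e0, e1, e3'] at a b; linear_combination a - b)
      funext i
      fin_cases i
      exacts [e0, e1, e2, e3']
  have h3 : #{c ∈ Bx 4 H | ¬ An3 c} ≤ #({a ∈ Bx 4 H | a 0 = 0} ∪ {a ∈ Bx 4 H | a 3 = 0} ∪
      {c ∈ Bx 4 H | ¬ An3 c ∧ c 0 ≠ 0 ∧ c 3 ≠ 0}) := card_le_card fun c hc => by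
    simp only [mem_union, mem_filter] at hc ⊢
    tauto
  have h4 := h3.trans ((card_union_le _ _).trans (Nat.add_le_add_right (card_union_le _ _) _))
  rw [card_Bx] at h2
  nlinarith

end Pool.Agent.Lib.MP_65b7ad_nt
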