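import Pool.Agent.Lib.MP_65b7ad_nt.C

/-! Summing over the points of one dyadic range. -/

namespace Pool.Agent.Lib.MP_65b7ad_nt

open Finset

theorem abs_e2 {q : Fin 3 → ℤ} {y z E R : ℤ} (hq : ∀ i, |q i| ≤ E) (hy : |y| ≤ R) (hz : |z| ≤ R) :
    |e2 q y z| ≤ 3 * E * R ^ 2 := by
  have hE := (abs_nonneg _).trans (hq 0)
  have hR := (abs_nonneg _).trans hy
  have t : ∀ i a b, |a| ≤ R → |b| ≤ R → -(E * R * R) ≤ q i * a * b ∧ q i * a * b ≤ E * R * R :=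
    fun i a b ha hb => by
      rw [← abs_le, abs_mul, abs_mul]
      gcongr
      exact hq i
  have := t 0 y y hy hy; have := t 1 y z hy hz; have := t 2 z z hz hz
  rw [e2, abs_le]
  constructor <;> nlinarith

theorem abs_e3 {c : Fin 4 → ℤ} {y z E R : ℤ} (hq : ∀ i, |c i| ≤ E) (hy : |y| ≤ R) (hz : |z| ≤ R) :
    |e3 c y z| ≤ 4 * E * R ^ 3 := by
  have hE := (abs_nonneg _).trans (hq 0)
  have hR := (abs_nonneg _).trans hy
  have t : ∀ i a b d, |a| ≤ R → |b| ≤ R → |d| ≤ R →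
      -(E * R * R * R) ≤ c i * a * b * d ∧ c i * a * b * d ≤ E * R * R * R :=
    fun i a b d ha hb hd => by
      rw [← abs_le, abs_mul, abs_mul, abs_mul]
      gcongr
      exact hq i
  have := t 0 y y y hy hy hy; have := t 1 y y z hy hy hz; have := t 2 y z z hy hz hz
  have := t 3 z z z hz hz hz
  rw [e3, abs_le]
  constructor <;> nlinarith

open Classical in
/-- Points of one dyadic range. -/
noncomputable def Pt (D R : ℕ) : Finset (ℤ × ℤ × ℤ) :=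
  {p ∈ I R ×ˢ I R ×ˢ I R | (D : ℤ) ≤ p.1 ∧ IsCoprime p.1 p.2.2 ∧ ¬ (p.2.1 = 0 ∧ p.2.2 = 0)}

theorem mem_Pt {D R : ℕ} {p : ℤ × ℤ × ℤ} : p ∈ Pt D R ↔ (|p.1| ≤ R ∧ |p.2.1| ≤ R ∧ |p.2.2| ≤ R) ∧
    (D : ℤ) ≤ p.1 ∧ IsCoprime p.1 p.2.2 ∧ ¬ (p.2.1 = 0 ∧ p.2.2 = 0) := by
  simp only [Pt, mem_filter, mem_product, mem_I]

theorem pts1 {T N D R : ℕ} (h : Dv T N) (P : Finset (ℤ × ℤ × ℤ)) (φ : ℤ → ℤ → ℤ)
    (hP : ∀ p ∈ P, p ∈ Pt D R ∧ p.1 ∣ φ p.2.1 p.2.2 ∧ φ p.2.1 p.2.2 ≠ 0 ∧ |φ p.2.1 p.2.2| ≤ N) :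
    (#P : ℝ) ≤ T * (2 * R + 1) ^ 2 := by
  have : #P ≤ T * #(I R ×ˢ I R) := by
    refine card_le_mul_card_image_of_maps_to (f := Prod.snd) (fun p hp => ?_) _ fun b _ => ?_
    · have := (mem_Pt.1 (hP p hp).1).1
      exact mem_product.2 ⟨mem_I.2 this.2.1, mem_I.2 this.2.2⟩
    rcases ({p ∈ P | p.2 = b}).eq_empty_or_nonempty with e | ⟨p₀, h₀⟩
    · simp [e]
    obtain ⟨a1, rfl⟩ := mem_filter.1 h₀
    rw [← card_image_of_injOn (f := Prod.fst) fun p hp q hq e =>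
      Prod.ext e ((mem_filter.1 hp).2.trans (mem_filter.1 hq).2.symm)]
    refine h.pos (hP _ a1).2.2.1 (hP _ a1).2.2.2 _ fun x hx => ?_
    obtain ⟨p, hp, rfl⟩ := mem_image.1 hx
    obtain ⟨b1, b2⟩ := mem_filter.1 hp
    have := (mem_Pt.1 (hP p b1).1).2.1
    exact ⟨by omega, b2 ▸ (hP p b1).2.1⟩
  rw [card_product, card_I, ← sq] at this
  exact_mod_cast this

theorem pts2 {T N D R : ℕ} (h : Dv T N) (hD : 1 ≤ D) (P : Finset (ℤ × ℤ × ℤ)) {m g a b u v : ℤ}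
    (h0 : m ≠ 0) (hm : |m| ≤ N) (hg : 0 < g) (e : u * a + v * b = 1)
    (hP : ∀ p ∈ P, p ∈ Pt D R ∧ p.1 ∣ m ∧ p.1 ∣ g * (a * p.2.1 + b * p.2.2)) :
    (#P : ℝ) ≤ T * (2 * R + 1) * (4 * R * g / D + 1) := by
  set t := {x ∈ I R | 0 ≤ x ∧ x ∣ m} ×ˢ I R with ht
  have h1 : #t ≤ T * (2 * R + 1) := by
    rw [card_product, card_I]
    exact Nat.mul_le_mul_right _ (h.pos h0 hm _ fun x hx => (mem_filter.1 hx).2)
  have h2 : (#t : ℝ) ≤ T * (2 * R + 1) := by exact_mod_cast h1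
  have rg : (0 : ℝ) < g := by exact_mod_cast hg
  rw [card_eq_sum_card_fiberwise (f := fun p => (p.1, p.2.2)) (t := t) fun p hp => by
    obtain ⟨a1, a2, -⟩ := hP p hp
    obtain ⟨a1, a3, -⟩ := mem_Pt.1 a1
    exact mem_product.2 ⟨mem_filter.2 ⟨mem_I.2 a1.1, by simp only; omega, a2⟩, mem_I.2 a1.2.2⟩]
  push_cast
  refine (sum_le_card_nsmul _ _ (4 * R * g / D + 1 : ℝ) fun k _ => ?_).trans
    ((nsmul_eq_mul _ _).trans_le (mul_le_mul_of_nonneg_right h2 (by positivity)))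
  rcases ({p ∈ P | (p.1, p.2.2) = k}).eq_empty_or_nonempty with e | ⟨p₀, h₀⟩
  · rw [e, card_empty, Nat.cast_zero]; positivity
  obtain ⟨a1, rfl⟩ := mem_filter.1 h₀
  obtain ⟨a2, -, a3⟩ := hP _ a1
  obtain ⟨a4, a5, a6, -⟩ := mem_Pt.1 a2
  rw [← card_image_of_injOn (f := fun p => g * (p.2.1 - p₀.2.1)) fun p hp q hq e => by
    obtain ⟨e1, e2⟩ := Prod.ext_iff.1 ((mem_filter.1 hp).2.trans (mem_filter.1 hq).2.symm)
    exact Prod.ext e1 (Prod.ext (sub_left_injective (mul_left_cancel₀ hg.ne' e)) e2)]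
  refine (card_mult _ (b := p₀.1) (E := g * (2 * R)) (by omega) (by positivity)
    fun x hx => ?_).trans ?_
  · obtain ⟨p, hp, rfl⟩ := mem_image.1 hx
    obtain ⟨b1, b2⟩ := mem_filter.1 hp
    obtain ⟨e1, e2⟩ := Prod.ext_iff.1 b2
    obtain ⟨b3, -, b4⟩ := hP _ b1
    simp only at e1 e2
    rw [e1, e2] at b4
    constructor
    · refine a6.dvd_of_dvd_mul_left ?_
      rw [show p₀.2.2 * (g * (p.2.1 - p₀.2.1)) = (u * p₀.2.2 - v * p₀.2.1) *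
        (g * (a * p.2.1 + b * p₀.2.2) - g * (a * p₀.2.1 + b * p₀.2.2)) + v * (p.2.1 - p₀.2.1) *
        (g * (a * p₀.2.1 + b * p₀.2.2)) by
          linear_combination -(p₀.2.2 * (g * (p.2.1 - p₀.2.1))) * e]
      exact ((b4.sub a3).mul_left _).add (a3.mul_left _)
    · rw [abs_mul, abs_of_pos hg]
      gcongr
      have := abs_le.1 (mem_Pt.1 b3).1.2.1
      have := abs_le.1 a4.2.1
      rw [abs_le]
      omega
  · have : (D : ℝ) ≤ p₀.1 := by exact_mod_cast a5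
    have : (0 : ℝ) < D := by exact_mod_cast hD
    push_cast
    rw [show 2 * ((g : ℝ) * (2 * R)) = 4 * R * g by ring]
    gcongr

theorem case_one {H : ℕ} {X Y Z : ℤ} (hc : IsCoprime X Z) (h0 : ¬ (Y = 0 ∧ Z = 0))
    (hr : #(Lr H X Y Z) ≤ 1) {q : Fin 3 → ℤ} (hq : q ∈ Lq H X Y Z) (hH : 1 ≤ H) (q0 : q ≠ 0) :
    q 0 ≠ 0 ∧ e2 q Y Z ≠ 0 := by
  obtain ⟨hq, hq2⟩ := mem_filter.1 hq
  have hb : ∀ i, |q i| ≤ 2 * H := fun i => by simpa using mem_Bx.1 hq i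
  have key : ∀ a b : ℤ, |a| ≤ 2 * H → |b| ≤ 2 * H → X ∣ a * Y + b * Z → a = 0 ∧ b = 0 :=
    fun a b ha hb h => by
      have := card_le_one.1 hr _ (mem_Lr (by omega) (by omega) h) _
        (mem_Lr (a := 0) (b := 0) (by simp) (by simp) (by simp))
      exact ⟨congrFun this 0, congrFun this 1⟩
  have k0 : q 0 ≠ 0 := fun e => by
    obtain ⟨a1, a2⟩ := key (q 1) (q 2) (hb 1) (hb 2) (hc.dvd_of_dvd_mul_left (by
      rwa [show Z * (q 1 * Y + q 2 * Z) = e2 q Y Z by rw [e2, e]; ring]))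
    refine q0 (funext fun i => ?_)
    fin_cases i
    exacts [e, a1, a2]
  refine ⟨k0, fun e => ?_⟩
  obtain ⟨g, y, z, hg, rfl, rfl, hyz⟩ := prim2 h0
  have e' : e2 q y z = 0 := mul_left_cancel₀ (pow_ne_zero 2 hg.ne') (by
    simp only [e2] at e ⊢; linear_combination e)
  obtain ⟨r1, r2⟩ := root2 hyz e'
  have bd : ∀ x i, x ∣ q i → q i ≠ 0 → |x| ≤ 2 * H := fun x i h1 h2 =>
    (Int.le_of_dvd (abs_pos.2 h2) ((abs_dvd_abs _ _).2 h1)).trans (hb i)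
  have hy : |y| ≤ 2 * H := by
    by_cases y0 : y = 0
    · simp [y0]
    by_cases q2 : q 2 = 0
    · have e3 : q 0 * y + q 1 * z = 0 := mul_left_cancel₀ y0 (by
        rw [e2, q2] at e'; linear_combination e')
      refine bd y 1 (hyz.dvd_of_dvd_mul_left ⟨-q 0, by linear_combination e3⟩) fun q1 => ?_
      rw [q1] at e3
      exact mul_ne_zero k0 y0 (by linear_combination e3)
    · exact bd y 2 r1 q2
  obtain ⟨a1, a2⟩ := key z (-y) (bd z 0 r2 k0) (by rwa [abs_neg]) ⟨0, by ring⟩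
  exact h0 ⟨by rw [neg_eq_zero.1 a2, mul_zero], by rw [a1, mul_zero]⟩

theorem point_bound {H D R : ℕ} (hH : 1 ≤ H) (hD : 1 ≤ D) (hD3 : D ≤ H ^ 3) {X Y Z : ℤ}
    (hp : (X, Y, Z) ∈ Pt D R) : (#(Nx H X Y Z) : ℝ) ≤
      (1 + 2 ^ 20 * H ^ 5 / D ^ 2) * #(Lc H X Y Z) +
      ∑ q ∈ V2 H with X ∣ e2 q Y Z ∧ e2 q Y Z ≠ 0, (2 * H + 1 : ℝ) ^ 2 +
      ∑ q ∈ U2 H with X ∣ e2 q Y Z, 600 * H ^ 4 / D * (#(Kq H q) : ℝ) +
      ∑ t ∈ Tr H with X ∣ t.1 * (t.2.1 * Y + t.2.2 * Z), 2 ^ 14 * H ^ 3 * wt t * #(Lc H X Y Z) := by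
  classical
  obtain ⟨-, hX, hc, h0⟩ := mem_Pt.1 hp
  simp only at hX hc h0
  have rD : (0 : ℝ) < D := by exact_mod_cast hD
  have rH : (1 : ℝ) ≤ H := by exact_mod_cast hH
  have h1 : (#(Nx H X Y Z) : ℝ) ≤ #(Lr H X Y Z) * #(Lq H X Y Z) * #(Lc H X Y Z) := by
    exact_mod_cast card_Nx (H := H) (Y := Y) (Z := Z) (by omega : X ≠ 0)
  have w0 : ∀ t, 0 ≤ wt t := fun t => by rw [wt]; positivity
  have n2 : 0 ≤ ∑ q ∈ V2 H with X ∣ e2 q Y Z ∧ e2 q Y Z ≠ 0, (2 * H + 1 : ℝ) ^ 2 := by positivity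
  have n3 : 0 ≤ ∑ q ∈ U2 H with X ∣ e2 q Y Z, 600 * H ^ 4 / D * (#(Kq H q) : ℝ) := by positivity
  have n4 : ∀ t, 0 ≤ 2 ^ 14 * H ^ 3 * wt t * #(Lc H X Y Z) := fun t => by
    have := w0 t; positivity
  have n5 : (0 : ℝ) ≤ 2 ^ 20 * H ^ 5 / D ^ 2 * #(Lc H X Y Z) := by positivity
  have n6 : (0 : ℝ) ≤ #(Lc H X Y Z) := Nat.cast_nonneg _
  rcases Lr_bound (H := H) (Y := Y) (by omega : 0 < X) hc with hr | ⟨t, ht, h2, h3⟩
  · have h2 : #(Lq H X Y Z) ≤ 1 + #{q ∈ V2 H | X ∣ e2 q Y Z ∧ e2 q Y Z ≠ 0} +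
        #{q ∈ U2 H | X ∣ e2 q Y Z} := by
      refine (card_le_card (t := {0} ∪ {q ∈ V2 H | X ∣ e2 q Y Z ∧ e2 q Y Z ≠ 0} ∪
        {q ∈ U2 H | X ∣ e2 q Y Z}) fun q hq => ?_).trans
        ((card_union_le _ _).trans (Nat.add_le_add_right (card_union_le _ _) _))
      have := case_one hc h0 hr hq hH
      simp only [Lq, V2, U2, mem_union, mem_filter, mem_singleton] at hq ⊢
      by_cases a : q = 0
      · exact Or.inl (Or.inl a)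
      by_cases b : An2 q
      exacts [Or.inr ⟨⟨hq.1, b⟩, hq.2⟩, Or.inl (Or.inr ⟨⟨hq.1, (this a).1, b⟩, hq.2, (this a).2⟩)]
    have h3 : (#(Lc H X Y Z) : ℝ) ≤ (2 * H + 1) ^ 2 := by
      exact_mod_cast (card_Lc hc).trans (by nlinarith)
    have h4 := sum_le_sum (s := {q ∈ U2 H | X ∣ e2 q Y Z}) fun q hq =>
      Lc_bound (Y := Y) hH hD hD3 hX hc (q := q) (mem_filter.2
        ⟨(mem_filter.1 (mem_filter.1 hq).1).1, (mem_filter.1 hq).2⟩)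
        (mem_filter.1 (mem_filter.1 hq).1).2
    have h5 : (#(Lq H X Y Z) : ℝ) ≤ 1 + #{q ∈ V2 H | X ∣ e2 q Y Z ∧ e2 q Y Z ≠ 0} +
        #{q ∈ U2 H | X ∣ e2 q Y Z} := by exact_mod_cast h2
    have h6 : (#(Lr H X Y Z) : ℝ) ≤ 1 := by exact_mod_cast hr
    have h7 := sum_nonneg (s := {t ∈ Tr H | X ∣ t.1 * (t.2.1 * Y + t.2.2 * Z)}) fun t _ => n4 t
    rw [sum_const, nsmul_eq_mul] at h4 ⊢
    have h8 := mul_le_mul_of_nonneg_left h3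
      (Nat.cast_nonneg (α := ℝ) #{q ∈ V2 H | X ∣ e2 q Y Z ∧ e2 q Y Z ≠ 0})
    have h9 := mul_le_mul_of_nonneg_right (mul_le_mul h6 h5 (by positivity) zero_le_one) n6
    rw [one_mul, add_mul, add_mul] at h9
    rw [add_mul]
    exact le_add_of_le_of_nonneg ((h1.trans h9).trans
      (add_le_add (add_le_add (by linarith) h8) h4)) h7
  · have h4 := single_le_sum (s := {t ∈ Tr H | X ∣ t.1 * (t.2.1 * Y + t.2.2 * Z)})
      (fun t _ => n4 t) (mem_filter.2 ⟨ht, h2⟩)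
    have h5 : (#(Lq H X Y Z) : ℝ) ≤ #(Lr H X Y Z) * (4 * H + 1) := by exact_mod_cast card_Lq hc
    have h6 : (2 : ℝ) ^ 17 * H ^ 4 / X ^ 2 ≤ 2 ^ 17 * H ^ 4 / D ^ 2 := by
      have : (D : ℝ) ≤ X := by exact_mod_cast hX
      gcongr
    have h7 : (#(Lr H X Y Z) : ℝ) * #(Lq H X Y Z) ≤
        2 ^ 20 * H ^ 5 / D ^ 2 + 2 ^ 14 * H ^ 3 * wt t := by
      calc (#(Lr H X Y Z) : ℝ) * #(Lq H X Y Z) ≤ #(Lr H X Y Z) * (#(Lr H X Y Z) * (8 * H)) := by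
            gcongr; nlinarith [Nat.cast_nonneg (α := ℝ) #(Lr H X Y Z)]
        _ = #(Lr H X Y Z) ^ 2 * (8 * H) := by ring
        _ ≤ (2 ^ 17 * H ^ 4 / D ^ 2 + 2 ^ 11 * H ^ 2 * wt t) * (8 * H) := by gcongr; linarith
        _ = _ := by ring
    have h9 := mul_le_mul_of_nonneg_right h7 n6
    rw [add_mul] at h9 ⊢
    refine (h1.trans h9).trans (add_le_add ?_ h4)
    exact le_add_of_le_of_nonneg (le_add_of_le_of_nonneg (by linarith) n2) n3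

end Pool.Agent.Lib.MP_65b7ad_nt
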