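import Pool.Agent.Lib.MP_65b7ad_nt.D

/-! The bound for one dyadic range of points. -/

namespace Pool.Agent.Lib.MP_65b7ad_nt

open Finset

theorem swap {α β : Type*} (P : Finset α) (U : Finset β) (r : α → β → Prop)
    [∀ a, DecidablePred (r a)] [∀ b, DecidablePred fun a => r a b] (F : α → β → ℝ) :
    ∑ p ∈ P, ∑ b ∈ U with r p b, F p b = ∑ b ∈ U, ∑ p ∈ P with r p b, F p b :=
  sum_comm' fun x y => by simp only [mem_filter]; tauto

theorem sum_Lc (H : ℕ) (P : Finset (ℤ × ℤ × ℤ)) (g : ℝ) (hg : 0 ≤ g)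
    (h : ∀ c ∈ U3 H, (#{p ∈ P | p.1 ∣ e3 c p.2.1 p.2.2} : ℝ) ≤ g) :
    ∑ p ∈ P, (#(Lc H p.1 p.2.1 p.2.2) : ℝ) ≤ (2 * H + 1) ^ 4 * g := by
  classical
  have h1 := swap P (U3 H) (fun p c => p.1 ∣ e3 c p.2.1 p.2.2) fun _ _ => 1
  simp only [sum_const, nsmul_eq_mul, mul_one] at h1
  refine h1.trans_le ((sum_le_card_nsmul _ _ g h).trans ?_)
  rw [nsmul_eq_mul]
  refine mul_le_mul_of_nonneg_right ?_ hg
  exact_mod_cast (card_filter_le _ _).trans_eq (card_Bx 4 H)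

theorem sum_wt {H : ℕ} : ∑ t ∈ Tr H, wt t * t.1 ≤ 2 * hs (8 * H) ^ 3 := by
  classical
  calc ∑ t ∈ Tr H, wt t * t.1
      ≤ ∑ t ∈ Tr H, 2 * (1 / (|(t.1 : ℝ)| + 1) * (1 / (|(t.2.1 : ℝ)| + 1) *
        (1 / (|(t.2.2 : ℝ)| + 1)))) := sum_le_sum fun t ht => by
        have h1 : (1 : ℝ) ≤ t.1 := by exact_mod_cast (mem_filter.1 ht).2.1
        rw [wt, abs_of_pos (by linarith : (0 : ℝ) < t.1)]
        have e : 1 / (t.1 ^ 2 * (|(t.2.1 : ℝ)| + 1) * (|(t.2.2 : ℝ)| + 1)) * t.1 =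
            1 / t.1 * (1 / (|(t.2.1 : ℝ)| + 1) * (1 / (|(t.2.2 : ℝ)| + 1))) := by field_simp
        rw [e, ← mul_assoc 2]
        gcongr
        rw [mul_one_div, div_le_div_iff₀ (by linarith) (by linarith)]
        linarith
    _ ≤ ∑ t ∈ I (8 * H) ×ˢ I (8 * H) ×ˢ I (8 * H), _ :=
        sum_le_sum_of_subset_of_nonneg (filter_subset _ _) fun _ _ _ => by positivity
    _ = _ := by
        simp only [sum_product, ← mul_sum, ← sum_mul, hs]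
        ring

theorem sum_Nx {T N H D K : ℕ} (h : Dv T N) (hH : 1 ≤ H) (hD : 1 ≤ D) (hD3 : D ≤ H ^ 3)
    (hK : 1 ≤ K) (hN1 : 6 * H * (2 * K * D) ^ 3 ≤ N) (hN2 : (8 * H) ^ 7 ≤ N) :
    ∑ p ∈ Pt D (2 * K * D), (#(Nx H p.1 p.2.1 p.2.2) : ℝ) ≤
      10 ^ 11 * (T ^ 4 * K ^ 2 * (H ^ 9 + D * H ^ 7)) := by
  classical
  set R := 2 * K * D with hR
  have hR1 : 1 ≤ R := by rw [hR]; nlinarith
  have hN3 : 8 * H + 1 ≤ N := by
    have : (8 * H) ^ 2 ≤ (8 * H) ^ 7 := Nat.pow_le_pow_right (by omega) (by omega)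
    nlinarith
  have zN : 6 * (H : ℤ) * R ^ 3 ≤ N := by exact_mod_cast hN1
  have zR : (1 : ℤ) ≤ R := by exact_mod_cast hR1
  have zR3 : (R : ℤ) ^ 2 ≤ R ^ 3 := pow_le_pow_right₀ zR (by omega)
  have rT : (1 : ℝ) ≤ T := by exact_mod_cast (by have := h.log (n := 1) (by omega) (by omega); omega)
  have rH : (1 : ℝ) ≤ H := by exact_mod_cast hH
  have rD : (1 : ℝ) ≤ D := by exact_mod_cast hD
  have rK : (1 : ℝ) ≤ K := by exact_mod_cast hK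
  have rD3 : (D : ℝ) ≤ H ^ 3 := by exact_mod_cast hD3
  have rR : (R : ℝ) = 2 * K * D := by rw [hR]; push_cast; rfl
  have bR : 2 * (R : ℝ) + 1 ≤ 5 * (K * D) := by rw [rR]; nlinarith
  have b2 : 2 * (H : ℝ) + 1 ≤ 3 * H := by linarith
  have b4 : 4 * (H : ℝ) + 1 ≤ 5 * H := by linarith
  have w0 : ∀ t, 0 ≤ wt t := fun t => by rw [wt]; positivity
  have q2 : ∀ q ∈ Bx 3 (2 * H), ∀ p ∈ Pt D R, |e2 q p.2.1 p.2.2| ≤ N := fun q hq p hp => by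
    have := abs_e2 (mem_Bx.1 hq) (mem_Pt.1 hp).1.2.1 (mem_Pt.1 hp).1.2.2
    push_cast at this
    nlinarith
  have s1 := sum_Lc H (Pt D R) (T * (2 * R + 1) ^ 2) (by positivity) fun c hc =>
    pts1 h _ (e3 c) fun p hp => by
      obtain ⟨a1, a2⟩ := mem_filter.1 hp
      obtain ⟨a3, a4⟩ := mem_filter.1 hc
      refine ⟨a1, a2, fun e => (mem_Pt.1 a1).2.2.2 (a4 _ _ e), ?_⟩
      have := abs_e3 (mem_Bx.1 a3) (mem_Pt.1 a1).1.2.1 (mem_Pt.1 a1).1.2.2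
      have : 0 ≤ (H : ℤ) * R ^ 3 := by positivity
      linarith
  have s2 : ∑ q ∈ V2 H, ∑ p ∈ Pt D R with p.1 ∣ e2 q p.2.1 p.2.2 ∧ e2 q p.2.1 p.2.2 ≠ 0,
      (2 * H + 1 : ℝ) ^ 2 ≤ (4 * H + 1) ^ 2 * (1 + 4 * T ^ 2) *
        (T * (2 * R + 1) ^ 2 * (2 * H + 1) ^ 2) := by
    refine (sum_le_card_nsmul _ _ (T * (2 * R + 1) ^ 2 * (2 * H + 1) ^ 2 : ℝ) fun q hq => ?_).trans
      ((nsmul_eq_mul _ _).trans_le (mul_le_mul_of_nonneg_right ?_ (by positivity)))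
    · rw [sum_const, nsmul_eq_mul]
      refine mul_le_mul_of_nonneg_right (pts1 (D := D) h _ (e2 q) fun p hp => ?_) (by positivity)
      obtain ⟨a1, a2, a3⟩ := mem_filter.1 hp
      exact ⟨a1, a2, a3, q2 q (mem_filter.1 hq).1 p a1⟩
    · exact_mod_cast card_V2 h (by omega)
  have s3 : ∑ q ∈ U2 H, ∑ p ∈ Pt D R with p.1 ∣ e2 q p.2.1 p.2.2,
      600 * H ^ 4 / D * (#(Kq H q) : ℝ) ≤ (T : ℝ) * (2 * R + 1) ^ 2 * (600 * H ^ 4 / D) *
        ((4 * H + 1) * (2 * T + 1)) ^ 3 := by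
    refine (sum_le_sum (g := fun q => T * (2 * R + 1) ^ 2 * (600 * H ^ 4 / D) * (#(Kq H q) : ℝ))
      fun q hq => ?_).trans ?_
    · rw [sum_const, nsmul_eq_mul, mul_assoc _ (600 * H ^ 4 / D : ℝ)]
      refine mul_le_mul_of_nonneg_right (pts1 (D := D) h _ (e2 q) fun p hp => ?_) (by positivity)
      obtain ⟨a1, a2⟩ := mem_filter.1 hp
      obtain ⟨a3, a4⟩ := mem_filter.1 hq
      exact ⟨a1, a2, fun e => (mem_Pt.1 a1).2.2.2 (a4 _ _ e), q2 q a3 p a1⟩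
    · rw [← mul_sum]
      refine mul_le_mul_of_nonneg_left ?_ (by positivity)
      have := (sum_Kq H).trans (Nat.pow_le_pow_left (card_Pairs h (by omega)) 3)
      rw [← mul_assoc] at this
      exact_mod_cast this
  have s4 : ∑ t ∈ Tr H, ∑ p ∈ Pt D R with p.1 ∣ t.1 * (t.2.1 * p.2.1 + t.2.2 * p.2.2),
      2 ^ 14 * H ^ 3 * wt t * (#(Lc H p.1 p.2.1 p.2.2) : ℝ) ≤
      (2 : ℝ) ^ 14 * H ^ 3 * ((2 * H + 1) ^ 4 * (T * (2 * R + 1) * (9 * K))) * (2 * (3 * T) ^ 3) := by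
    refine (sum_le_sum (g := fun t => 2 ^ 14 * H ^ 3 * ((2 * H + 1) ^ 4 *
      (T * (2 * R + 1) * (9 * K))) * (wt t * t.1)) fun t ht => ?_).trans ?_
    · obtain ⟨a1, hg, u, v, e⟩ := mem_filter.1 ht
      obtain ⟨g, a, b⟩ := t
      simp only [mem_product, mem_I] at a1 hg e ⊢
      have rg : (1 : ℝ) ≤ g := by exact_mod_cast hg
      rw [← mul_sum]
      have := w0 (g, a, b)
      refine (mul_le_mul_of_nonneg_left (sum_Lc H _ (T * (2 * R + 1) * (9 * K * g)) (by positivity)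
        fun c hc => ?_) (by positivity)).trans_eq (by ring)
      obtain ⟨a3, a4⟩ := mem_filter.1 hc
      have hb : ∀ x : ℤ, |x| ≤ (8 * H : ℕ) → |g * x| ≤ (8 * H) ^ 2 := fun x hx => by
        rw [abs_mul, sq]
        push_cast at a1 hx
        exact mul_le_mul a1.1 hx (abs_nonneg _) (by positivity)
      refine (pts2 (R := R) h hD _ (m := e3 c (-(g * b)) (g * a)) (fun e0 => ?_) ?_ hg e
        fun p hp => ?_).trans ?_
      · obtain ⟨c1, c2⟩ := a4 _ _ e0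
        exact hg.ne' (by linear_combination -g * e + u * c2 - v * c1)
      · refine (abs_e3 (mem_Bx.1 a3) ((abs_neg _).trans_le (hb b a1.2.2)) (hb a a1.2.1)).trans ?_
        have : (8 * (H : ℤ)) ^ 7 ≤ N := by exact_mod_cast hN2
        have : 0 ≤ (H : ℤ) ^ 7 := by positivity
        nlinarith
      · obtain ⟨c1, c2⟩ := mem_filter.1 hp
        obtain ⟨c1, c3⟩ := mem_filter.1 c1
        refine ⟨c1, (((mem_Pt.1 c1).2.2.1).pow_right (n := 3)).dvd_of_dvd_mul_left ?_, c3⟩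
        rw [show p.2.2 ^ 3 * e3 c (-(g * b)) (g * a) = (g * a) ^ 3 * e3 c p.2.1 p.2.2 -
          g * (a * p.2.1 + b * p.2.2) * (c 0 * ((g * a * p.2.1) ^ 2 - g * a * p.2.1 *
          (g * b * p.2.2) + (g * b * p.2.2) ^ 2) + c 1 * (g * a * p.2.1 - g * b * p.2.2) *
          (g * a * p.2.2) + c 2 * (g * a * p.2.2) ^ 2) by simp only [e3]; ring]
        exact (c2.mul_left _).sub (c3.mul_right _)
      · refine mul_le_mul_of_nonneg_left ?_ (by positivity)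
        rw [rR, show 4 * (2 * (K : ℝ) * D) * g / D = 8 * (K * g) by field_simp; ring]
        nlinarith
    · rw [← mul_sum]
      refine mul_le_mul_of_nonneg_left (sum_wt.trans ?_) (by positivity)
      have := h.hs hN3
      have : 0 ≤ hs (8 * H) := by rw [hs]; positivity
      gcongr
  refine (sum_le_sum fun (p : ℤ × ℤ × ℤ) hp => point_bound (X := p.1) (Y := p.2.1) (Z := p.2.2) hH hD hD3
    hp).trans ?_
  rw [sum_add_distrib, sum_add_distrib, sum_add_distrib, ← mul_sum, swap (Pt D R) (V2 H),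
    swap (Pt D R) (U2 H), swap (Pt D R) (Tr H)]
  have T1 : (T : ℝ) ≤ T ^ 4 := le_self_pow₀ rT (by omega)
  have T3 : (T : ℝ) ^ 3 ≤ T ^ 4 := pow_le_pow_right₀ rT (by omega)
  have K1 : (K : ℝ) ≤ K ^ 2 := le_self_pow₀ rK (by omega)
  have u0 : (D : ℝ) ^ 2 * H ^ 4 ≤ D * H ^ 7 := by
    calc (D : ℝ) ^ 2 * H ^ 4 = (D : ℝ) * D * H ^ 4 := by ring
      _ ≤ (D : ℝ) * H ^ 3 * H ^ 4 := by gcongr
      _ = _ := by ring
  have u1 : (1 + 2 ^ 20 * H ^ 5 / D ^ 2) * ∑ p ∈ Pt D R, (#(Lc H p.1 p.2.1 p.2.2) : ℝ) ≤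
      2025 * (T ^ 4 * K ^ 2 * (D * H ^ 7)) + 2025 * 2 ^ 20 * (T ^ 4 * K ^ 2 * H ^ 9) := by
    calc _ ≤ (1 + 2 ^ 20 * H ^ 5 / D ^ 2) * ((3 * H) ^ 4 * (T ^ 4 * (5 * (K * D)) ^ 2) : ℝ) := by
          refine mul_le_mul_of_nonneg_left (s1.trans ?_) (by positivity)
          gcongr
      _ = (2025 : ℝ) * (T ^ 4 * K ^ 2 * (D ^ 2 * H ^ 4)) + 2025 * 2 ^ 20 * (T ^ 4 * K ^ 2 * H ^ 9) := by
          field_simp
          ring
      _ ≤ _ := by gcongr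
  have u2 := s2.trans (c := (28125 : ℝ) * (T ^ 4 * K ^ 2 * (D * H ^ 7))) (by
    calc _ ≤ (5 * H) ^ 2 * (5 * T ^ 2) * (T * (5 * (K * D)) ^ 2 * (3 * H) ^ 2 : ℝ) := by
          gcongr
          nlinarith
      _ = (28125 : ℝ) * (T ^ 3 * K ^ 2 * (D ^ 2 * H ^ 4)) := by ring
      _ ≤ _ := by gcongr)
  have u3 := s3.trans (c := (50625000 : ℝ) * (T ^ 4 * K ^ 2 * (D * H ^ 7))) (by
    calc _ ≤ T * (5 * (K * D)) ^ 2 * (600 * H ^ 4 / D) * ((5 * H) * (3 * T) : ℝ) ^ 3 := by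
          gcongr
          linarith
      _ = _ := by
          field_simp
          ring)
  have u4 := s4.trans (c := (2 : ℝ) ^ 14 * 196830 * (T ^ 4 * K ^ 2 * (D * H ^ 7))) (by
    calc _ ≤ 2 ^ 14 * H ^ 3 * ((3 * H) ^ 4 * (T * (5 * (K * D)) * (9 * K))) *
          (2 * (3 * T : ℝ) ^ 3) := by gcongr
      _ = _ := by ring)
  have p1 : (0 : ℝ) ≤ T ^ 4 * K ^ 2 * (D * H ^ 7) := by positivity
  have p2 : (0 : ℝ) ≤ T ^ 4 * K ^ 2 * H ^ 9 := by positivity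
  refine (add_le_add (add_le_add (add_le_add u1 u2) u3) u4).trans ?_
  linarith

end Pool.Agent.Lib.MP_65b7ad_nt
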