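import Pool.Agent.Lib.MP_65b7ad_nt.E

/-! Reduction of the count of cubics with a small point to the dyadic bound. -/

namespace Pool.Agent.Lib.MP_65b7ad_nt

open Finset

open Classical in
/-- Cubics with a point whose first and last coordinates are coprime. -/
noncomputable def Gs (H B K : ℕ) : Finset (Fin 10 → ℤ) := {a ∈ Bx 10 H | ∃ X Y Z : ℤ, 0 < X ∧
  X ≤ B ∧ |Y| ≤ K * X ∧ |Z| ≤ K * X ∧ IsCoprime X Z ∧ ev a X Y Z = 0}

theorem card_Gs {T N H B K : ℕ} (h : Dv T N) (hH : 1 ≤ H) (hB : 1 ≤ B) (hB3 : B ≤ H ^ 3)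
    (hK : 1 ≤ K) (hN1 : 6 * H * (2 * K * B) ^ 3 ≤ N) (hN2 : (8 * H) ^ 7 ≤ N) :
    (#(Gs H B K) : ℝ) ≤ 10 ^ 12 * (T ^ 5 * K ^ 2 * (H ^ 9 + B * H ^ 7)) := by
  classical
  have hHN : H ^ 3 ≤ N := ((Nat.pow_le_pow_right hH (by omega : 3 ≤ 7)).trans
    (Nat.pow_le_pow_left (by omega) 7)).trans hN2
  have hL := h.log (hB3.trans hHN) (by omega)
  have h1 : #(Gs H B K) ≤ #({a ∈ Bx 10 H | a 0 = 0} ∪ {a ∈ Bx 10 H | ¬ An3 (cP a)} ∪
      (range (Nat.log 2 B + 1)).biUnion fun j => (Pt (2 ^ j) (2 * K * 2 ^ j)).biUnion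
        fun p => Nx H p.1 p.2.1 p.2.2) := card_le_card fun a ha => by
    obtain ⟨a1, X, Y, Z, x0, xB, hY, hZ, hc, e⟩ := mem_filter.1 ha
    simp only [mem_union, mem_filter, mem_biUnion]
    by_cases b0 : a 0 = 0
    · exact Or.inl (Or.inl ⟨a1, b0⟩)
    by_cases b1 : An3 (cP a)
    swap
    · exact Or.inl (Or.inr ⟨a1, b1⟩)
    lift X to ℕ using x0.le
    have c1 : ((2 ^ Nat.log 2 X : ℕ) : ℤ) ≤ X := by
      exact_mod_cast Nat.pow_log_le_self 2 (by omega : X ≠ 0)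
    have c2 : (X : ℤ) ≤ 2 * (2 ^ Nat.log 2 X : ℕ) := by
      have := (Nat.lt_pow_succ_log_self one_lt_two X).le
      rw [pow_succ'] at this
      exact_mod_cast this
    have c3 : (K : ℤ) * X ≤ (2 * K * 2 ^ Nat.log 2 X : ℕ) := by
      push_cast at c2 ⊢
      nlinarith
    have zK : (1 : ℤ) ≤ K := by exact_mod_cast hK
    refine Or.inr ⟨Nat.log 2 X, mem_range.2 (Nat.lt_succ_of_le (Nat.log_mono_right (by omega))),
      (X, Y, Z), mem_Pt.2 ⟨⟨?_, hY.trans c3, hZ.trans c3⟩, c1, hc, ?_⟩, mem_filter.2 ⟨a1, b1, e⟩⟩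
    · refine le_trans ?_ c3
      simp only [abs_of_pos x0]
      nlinarith
    · rintro ⟨rfl, rfl⟩
      simp [ev, b0] at e
      omega
  have h2 := card_zero (n := 9) (H := H) 0
  have h3 : #{a ∈ Bx 10 H | ¬ An3 (cP a)} ≤ (2 * H + 1) ^ 6 * #{c ∈ Bx 4 H | ¬ An3 c} := by
    refine card_le_mul_card_image_of_maps_to (f := cP) (fun a ha => ?_) _ fun c _ => ?_
    · obtain ⟨a1, a2⟩ := mem_filter.1 ha
      refine mem_filter.2 ⟨mem_Bx.2 fun i => ?_, a2⟩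
      fin_cases i <;> exact mem_Bx.1 a1 _
    · rw [← card_Bx]
      refine card_le_card_of_injOn (fun a => ![a 0, a 1, a 2, a 3, a 4, a 5])
        (fun a ha => mem_Bx.2 fun i => ?_) fun a ha b hb e => ?_
      · fin_cases i <;> exact mem_Bx.1 (mem_filter.1 (mem_filter.1 ha).1).1 _
      · have e' := (mem_filter.1 ha).2.trans (mem_filter.1 hb).2.symm
        funext i
        fin_cases i
        exacts [congrFun e 0, congrFun e 1, congrFun e 2, congrFun e 3, congrFun e 4, congrFun e 5,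
          congrFun e' 0, congrFun e' 1, congrFun e' 2, congrFun e' 3]
  have h4 := h3.trans (Nat.mul_le_mul_left _
    (card_V3 h ((Nat.le_self_pow (by omega) H).trans hHN)))
  have h5 := h1.trans ((card_union_le _ _).trans (Nat.add_le_add ((card_union_le _ _).trans
    (Nat.add_le_add h2 h4)) (card_biUnion_le.trans (sum_le_sum fun _ _ => card_biUnion_le))))
  have h6 : (#(Gs H B K) : ℝ) ≤ (2 * H + 1) ^ 9 + (2 * H + 1) ^ 6 * ((2 * H + 1) ^ 3 *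
      (2 + 4 * T ^ 2)) + ∑ j ∈ range (Nat.log 2 B + 1), ∑ p ∈ Pt (2 ^ j) (2 * K * 2 ^ j),
      (#(Nx H p.1 p.2.1 p.2.2) : ℝ) := by exact_mod_cast h5
  have rT : (1 : ℝ) ≤ T := by exact_mod_cast (by omega : 1 ≤ T)
  have rH : (1 : ℝ) ≤ H := by exact_mod_cast hH
  have rK : (1 : ℝ) ≤ K := by exact_mod_cast hK
  have h7 := sum_le_card_nsmul (range (Nat.log 2 B + 1)) (fun j => ∑ p ∈ Pt (2 ^ j) (2 * K * 2 ^ j),
      (#(Nx H p.1 p.2.1 p.2.2) : ℝ)) (10 ^ 11 * (T ^ 4 * K ^ 2 * (H ^ 9 + B * H ^ 7))) fun j hj => by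
    have hj' : 2 ^ j ≤ B := (Nat.pow_le_pow_right two_pos (Nat.lt_succ_iff.1 (mem_range.1 hj))).trans
      (Nat.pow_log_le_self 2 (by omega))
    refine (sum_Nx h hH Nat.one_le_two_pow (hj'.trans hB3) hK (le_trans ?_ hN1) hN2).trans ?_
    · gcongr
    · gcongr
  rw [card_range, nsmul_eq_mul] at h7
  have h8 : ((Nat.log 2 B + 1 : ℕ) : ℝ) ≤ T := by exact_mod_cast hL
  have h9 := h7.trans (mul_le_mul_of_nonneg_right h8 (by positivity))
  have b2 : (2 * (H : ℝ) + 1) ^ 9 ≤ (3 * H) ^ 9 := by gcongr; linarith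
  have b3 : (T : ℝ) ^ 2 ≤ T ^ 5 * K ^ 2 :=
    (pow_le_pow_right₀ rT (by omega)).trans (le_mul_of_one_le_right (by positivity) (one_le_pow₀ rK))
  have b4 : (1 : ℝ) ≤ T ^ 2 := one_le_pow₀ rT
  have b5 : (2 * (H : ℝ) + 1) ^ 9 * (3 + 4 * T ^ 2) ≤ (3 * H) ^ 9 * (7 * (T ^ 5 * K ^ 2)) := by
    gcongr
    linarith
  have p1 : (0 : ℝ) ≤ T ^ 5 * K ^ 2 * (B * H ^ 7) := by positivity
  have p2 : (0 : ℝ) ≤ T ^ 5 * K ^ 2 * H ^ 9 := by positivity
  refine (h6.trans (add_le_add_right h9 _)).trans ?_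
  linarith

/-- The substitution of `z - k y` for `z`. -/
def sh (k : ℤ) (a : Fin 10 → ℤ) : Fin 10 → ℤ :=
  ![a 0, a 1 - k * a 2, a 2, a 3 - k * a 4 + k ^ 2 * a 5, a 4 - 2 * (k * a 5), a 5,
    a 6 - k * a 7 + k ^ 2 * a 8 - k ^ 3 * a 9, a 7 - 2 * (k * a 8) + 3 * (k ^ 2 * a 9),
    a 8 - 3 * (k * a 9), a 9]

theorem sh_inj (k : ℤ) : Function.Injective (sh k) := by
  refine Function.LeftInverse.injective (g := sh (-k)) fun a => funext fun i => ?_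
  fin_cases i <;> simp [sh] <;> ring

theorem ev_sh (k : ℤ) (a x y z) : ev (sh k a) x y (z + k * y) = ev a x y z := by
  simp [ev, sh]
  ring

theorem sh_mem {H K k : ℕ} (hk : k < K) {a} (ha : a ∈ Bx 10 H) : sh k a ∈ Bx 10 (6 * K ^ 3 * H) := by
  have t : ∀ e ≤ 3, ∀ i, -((K : ℤ) ^ 3 * H) ≤ k ^ e * a i ∧ k ^ e * a i ≤ (K : ℤ) ^ 3 * H :=
    fun e he i => by
      have : ((k : ℤ)) ^ e ≤ K ^ 3 := by
        exact_mod_cast (Nat.pow_le_pow_left hk.le e).trans (Nat.pow_le_pow_right (by omega) he)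
      rw [← abs_le, abs_mul, abs_of_nonneg (by positivity)]
      exact mul_le_mul this (mem_Bx.1 ha i) (abs_nonneg _) (by positivity)
  have t0 := t 0 (by omega)
  have t1 := t 1 (by omega)
  have t2 := t 2 (by omega)
  have t3 := t 3 (by omega)
  simp only [pow_zero, one_mul, pow_one] at t0 t1
  rw [mem_Bx]
  push_cast
  rw [mul_assoc]
  simp only [Fin.forall_fin_succ, sh, Matrix.cons_val_zero, Matrix.cons_val_succ,
    IsEmpty.forall_iff, and_true, abs_le]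
  have := t0 0; have := t0 1; have := t0 2; have := t0 3; have := t0 4; have := t0 5
  have := t0 6; have := t0 7; have := t0 8; have := t0 9; have := t1 2; have := t1 4
  have := t1 5; have := t1 7; have := t1 8; have := t1 9; have := t2 5; have := t2 8
  have := t2 9; have := t3 9
  omega

open Classical in
/-- Cubics with a primitive point whose first coordinate is the largest. -/
noncomputable def S0 (H B : ℕ) : Finset (Fin 10 → ℤ) := {a ∈ Bx 10 H | ∃ X Y Z α β γ : ℤ, 0 < X ∧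
  X ≤ B ∧ |Y| ≤ X ∧ |Z| ≤ X ∧ α * X + β * Y + γ * Z = 1 ∧ ev a X Y Z = 0}

theorem card_pre {α : Type*} [DecidableEq α] {ι : Type*} [DecidableEq ι] (S G : Finset α)
    (J : Finset ι) (f : ι → α → α) (hf : ∀ j, Function.Injective (f j))
    (h : ∀ a ∈ S, ∃ j ∈ J, f j a ∈ G) : #S ≤ #J * #G := by
  refine (card_le_card (t := J.biUnion fun j => {a ∈ S | f j a ∈ G}) fun a ha => ?_).trans
    (card_biUnion_le_card_mul _ _ _ fun j _ =>
      card_le_card_of_injOn (f j) (fun a ha => (mem_filter.1 ha).2) (hf j).injOn)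
  obtain ⟨j, hj, e⟩ := h a ha
  exact mem_biUnion.2 ⟨j, hj, mem_filter.2 ⟨ha, e⟩⟩

theorem card_S0 {T H B : ℕ} (h : Dv T B) :
    #(S0 H B) ≤ 2 * T ^ 3 * #(Gs (6 * (2 * T ^ 3) ^ 3 * H) B (2 * T ^ 3)) := by
  classical
  refine (card_pre _ _ (range (2 * T ^ 3)) (fun k => sh k) (fun k => sh_inj k) fun a ha => ?_).trans
    (by rw [card_range])
  obtain ⟨a1, X, Y, Z, α, β, γ, x0, xB, hY, hZ, e, e0⟩ := mem_filter.1 ha
  obtain ⟨k, hk, hc⟩ := shift h x0 xB e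
  have zk : (k : ℤ) + 1 ≤ (2 * T ^ 3 : ℕ) := by exact_mod_cast hk
  refine ⟨k, mem_range.2 hk, mem_filter.2 ⟨sh_mem hk a1, X, Y, Z + k * Y, x0, xB, by nlinarith,
    (abs_add_le _ _).trans ?_, hc, (ev_sh _ _ _ _ _).trans e0⟩⟩
  rw [abs_mul, Nat.abs_cast]
  nlinarith

theorem mem_S0 {H B : ℕ} {a} (ha : a ∈ Bx 10 H) {x y z α β γ : ℤ} (hx : |x| ≤ B) (hy : |y| ≤ |x|)
    (hz : |z| ≤ |x|) (e : α * x + β * y + γ * z = 1) (e0 : ev a x y z = 0) : a ∈ S0 H B := by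
  classical
  rcases lt_trichotomy x 0 with h | rfl | h
  · rw [abs_of_neg h] at hx hy hz
    exact mem_filter.2 ⟨ha, -x, -y, -z, -α, -β, -γ, by omega, hx, by rwa [abs_neg],
      by rwa [abs_neg], by linear_combination e, by simp only [ev] at e0 ⊢; linear_combination -e0⟩
  · simp only [abs_zero, abs_nonpos_iff] at hy hz
    simp [hy, hz] at e
  · rw [abs_of_pos h] at hx hy hz
    exact mem_filter.2 ⟨ha, x, y, z, α, β, γ, h, hx, hy, hz, e, e0⟩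

/-- Exchanges of the variables, acting on the coefficients. -/
def sw : Fin 3 → Fin 10 → Fin 10 :=
  ![id, ![6, 3, 7, 1, 4, 8, 0, 2, 5, 9], ![9, 8, 5, 7, 4, 2, 6, 3, 1, 0]]

open Classical in
/-- Cubics with a point of bounded height. -/
noncomputable def S1 (H B : ℕ) : Finset (Fin 10 → ℤ) := {a ∈ Bx 10 H | ∃ x y z : ℤ,
  ¬ (x = 0 ∧ y = 0 ∧ z = 0) ∧ |x| ≤ B ∧ |y| ≤ B ∧ |z| ≤ B ∧ ev a x y z = 0}

theorem card_S1 (H B : ℕ) : #(S1 H B) ≤ 3 * #(S0 H B) := by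
  classical
  refine (card_pre _ (S0 H B) (univ : Finset (Fin 3)) (fun j a => a ∘ sw j)
    (fun j => Function.Surjective.injective_comp_right (by revert j; decide)) fun a ha => ?_).trans
    (by simp)
  obtain ⟨a1, x, y, z, h0, hx, hy, hz, e⟩ := mem_filter.1 ha
  obtain ⟨g, x, y, z, α, β, γ, hg, rfl, rfl, rfl, e1⟩ := prim x y z h0
  have hb : ∀ x : ℤ, |g * x| ≤ B → |x| ≤ B := fun x hx => by
    rw [abs_mul, abs_of_pos hg] at hx
    nlinarith [abs_nonneg x]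
  have e0 : ev a x y z = 0 := mul_left_cancel₀ (pow_ne_zero 3 hg.ne') (by
    simp only [ev] at e ⊢; linear_combination e)
  have hm : ∀ j, a ∘ sw j ∈ Bx 10 H := fun j => mem_Bx.2 fun i => mem_Bx.1 a1 _
  by_cases c1 : |y| ≤ |x| ∧ |z| ≤ |x|
  · exact ⟨0, mem_univ _, mem_S0 (hm 0) (hb x hx) c1.1 c1.2 e1 e0⟩
  by_cases c2 : |z| ≤ |y|
  · refine ⟨1, mem_univ _, mem_S0 (α := β) (β := α) (γ := γ) (y := x) (hm 1) (hb y hy) (by omega) c2
      (by linear_combination e1) ?_⟩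
    simp [ev, sw] at e0 ⊢
    linear_combination e0
  · refine ⟨2, mem_univ _, mem_S0 (α := γ) (β := β) (γ := α) (y := y) (z := x) (hm 2) (hb z hz)
      (by omega) (by omega) (by linear_combination e1) ?_⟩
    simp [ev, sw] at e0 ⊢
    linear_combination e0

theorem card_S1_le {T H B : ℕ} (h : Dv T ((2 * H) ^ 200)) (hH : 1 ≤ H) (hB : 1 ≤ B)
    (hB3 : B ≤ H ^ 3) : (#(S1 H B) : ℝ) ≤ 10 ^ 30 * (T ^ 95 * (H ^ 9 + B * H ^ 7)) := by
  have p0 : ∀ e ≤ 200, ∀ c ≤ 2 ^ 200, c * H ^ e ≤ (2 * H) ^ 200 := fun e he c hc => by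
    rw [mul_pow]
    exact Nat.mul_le_mul hc (Nat.pow_le_pow_right hH he)
  have h0 : Dv (min T (H ^ 3)) B := fun n hn => le_min
    (h n ((hn.trans hB3).trans (by simpa using p0 3 (by omega) 1 Nat.one_le_two_pow)))
    ((Nat.card_divisors_le_self n).trans (hn.trans hB3))
  have t1 : 1 ≤ min T (H ^ 3) := by have := h0.log hB one_ne_zero; omega
  have h1 := (card_S1 H B).trans (Nat.mul_le_mul_left 3 (card_S0 h0))
  have k1 : 1 ≤ 2 * min T (H ^ 3) ^ 3 := by have := Nat.one_le_pow 3 _ t1; omega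
  have k2 : 2 * min T (H ^ 3) ^ 3 ≤ 2 * T ^ 3 := by gcongr; exact min_le_left _ _
  have k3 : 2 * min T (H ^ 3) ^ 3 ≤ 2 * (H ^ 3) ^ 3 := by gcongr; exact min_le_right _ _
  generalize 2 * min T (H ^ 3) ^ 3 = K at *
  have k4 : H ≤ 6 * K ^ 3 * H := Nat.le_mul_of_pos_left _ (by positivity)
  have h2 := card_Gs (H := 6 * K ^ 3 * H) h (by omega) hB (hB3.trans (by gcongr)) k1
    (le_trans (b := 6 * (6 * (2 * (H ^ 3) ^ 3) ^ 3 * H) * (2 * (2 * (H ^ 3) ^ 3) * H ^ 3) ^ 3)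
      (by gcongr) (le_trans (le_of_eq (by ring)) (p0 64 (by omega) 18432 (by norm_num))))
    (le_trans (b := (8 * (6 * (2 * (H ^ 3) ^ 3) ^ 3 * H)) ^ 7)
      (by gcongr) (le_trans (le_of_eq (by ring)) (p0 196 (by omega) (384 ^ 7) (by norm_num))))
  have h3 : (#(S1 H B) : ℝ) ≤ 3 * (K * #(Gs (6 * K ^ 3 * H) B K)) := by exact_mod_cast h1
  have rK : (1 : ℝ) ≤ K := by exact_mod_cast k1
  have rK2 : (K : ℝ) ≤ 2 * T ^ 3 := by exact_mod_cast k2
  have r1 : (6 * (K : ℝ) ^ 3) ^ 7 ≤ (6 * K ^ 3) ^ 9 :=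
    pow_le_pow_right₀ (by nlinarith [one_le_pow₀ rK (n := 3)]) (by omega)
  push_cast at h2
  calc (#(S1 H B) : ℝ) ≤ 3 * (K * (10 ^ 12 * (T ^ 5 * K ^ 2 * ((6 * K ^ 3 * H) ^ 9 +
        B * (6 * K ^ 3 * H) ^ 7)))) := h3.trans (by gcongr)
    _ ≤ 3 * (K * (10 ^ 12 * (T ^ 5 * K ^ 2 * ((6 * K ^ 3) ^ 9 * H ^ 9 +
        B * ((6 * K ^ 3) ^ 9 * H ^ 7))))) := by
      rw [mul_pow _ (H : ℝ), mul_pow _ (H : ℝ)]
      gcongr
    _ = 3 * 10 ^ 12 * 6 ^ 9 * (K : ℝ) ^ 30 * (T ^ 5 * (H ^ 9 + B * H ^ 7)) := by ring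
    _ ≤ 3 * 10 ^ 12 * 6 ^ 9 * (2 * T ^ 3 : ℝ) ^ 30 * (T ^ 5 * (H ^ 9 + B * H ^ 7)) := by gcongr
    _ = 3 * 10 ^ 12 * 6 ^ 9 * 2 ^ 30 * (T ^ 95 * (H ^ 9 + B * H ^ 7) : ℝ) := by ring
    _ ≤ _ := by gcongr; norm_num

theorem card_divisors_pow_le (k : ℕ) : ∃ C : ℕ, ∀ n : ℕ, n ≠ 0 → #n.divisors ^ k ≤ C * n := by
  set C0 := k.factorial * 2 ^ k with hC0
  have hC : 1 ≤ C0 := Nat.one_le_iff_ne_zero.2 (by positivity)
  refine ⟨C0 ^ 2 ^ k, fun n hn => ?_⟩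
  rw [Nat.card_divisors hn, ← prod_pow]
  calc ∏ p ∈ n.primeFactors, (n.factorization p + 1) ^ k
      ≤ ∏ p ∈ n.primeFactors, (if p < 2 ^ k then C0 else 1) * p ^ n.factorization p := by
        refine prod_le_prod' fun p hp => ?_
        have h2 := (Nat.prime_of_mem_primeFactors hp).two_le
        generalize n.factorization p = a
        split_ifs with h
        · calc (a + 1) ^ k ≤ (a + 1).ascFactorial k := Nat.pow_succ_le_ascFactorial _ _
            _ = k.factorial * (a + k).choose k := Nat.ascFactorial_eq_factorial_mul_choose _ _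
            _ ≤ k.factorial * 2 ^ (a + k) := by gcongr; exact Nat.choose_le_two_pow _ _
            _ = C0 * 2 ^ a := by rw [hC0]; ring
            _ ≤ C0 * p ^ a := by gcongr
        · calc (a + 1) ^ k ≤ (2 ^ a) ^ k := by gcongr; exact Nat.lt_two_pow_self
            _ = (2 ^ k) ^ a := by rw [← pow_mul, ← pow_mul, mul_comm]
            _ ≤ 1 * p ^ a := by rw [one_mul]; gcongr; omega
    _ ≤ C0 ^ 2 ^ k * n := by
        rw [prod_mul_distrib]
        gcongr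
        · rw [prod_ite, prod_const_one, mul_one, prod_const]
          refine Nat.pow_le_pow_right hC ?_
          calc _ ≤ #(range (2 ^ k)) := card_le_card fun p hp => mem_range.2 (mem_filter.1 hp).2
            _ = _ := card_range _
        · exact (Nat.prod_factorization_pow_eq_self hn).le

theorem exists_Dv {ε : ℝ} (hε : 0 < ε) : ∃ C : ℝ, 0 ≤ C ∧ ∀ H : ℕ, 1 ≤ H → ∃ T,
    Dv T ((2 * H) ^ 200) ∧ (T : ℝ) ^ 95 ≤ C * (H : ℝ) ^ ε := by
  obtain ⟨m, hm⟩ := exists_nat_one_div_lt hε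
  obtain ⟨C, hC⟩ := card_divisors_pow_le (95 * (200 * (m + 1)))
  refine ⟨(C + 1) * 2, by positivity, fun H hH => ⟨(range ((2 * H) ^ 200 + 1)).sup
    fun n => #n.divisors, fun n hn => le_sup (f := fun n : ℕ => #n.divisors)
      (mem_range.2 (by omega)), ?_⟩⟩
  obtain ⟨n, hn, e⟩ := exists_mem_eq_sup (range ((2 * H) ^ 200 + 1)) (by simp)
    fun n : ℕ => #n.divisors
  rw [e]
  have rH : (1 : ℝ) ≤ H := by exact_mod_cast hH
  rcases eq_or_ne n 0 with rfl | n0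
  · simp
    positivity
  refine le_of_pow_le_pow_left₀ (n := 200 * (m + 1)) (by omega) (by positivity) ?_
  have h1 : ((#n.divisors : ℝ) ^ 95) ^ (200 * (m + 1)) ≤ C * (2 * H) ^ 200 := by
    rw [← pow_mul]
    exact_mod_cast (hC n n0).trans (Nat.mul_le_mul_left _ (Nat.lt_succ_iff.1 (mem_range.1 hn)))
  refine h1.trans ?_
  rw [mul_pow, mul_pow, mul_pow, ← mul_assoc, ← Real.rpow_natCast ((H : ℝ) ^ ε),
    ← Real.rpow_mul (by positivity), ← Real.rpow_natCast (H : ℝ) 200]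
  gcongr
  · exact (by linarith : (C : ℝ) ≤ C + 1).trans (le_self_pow₀ (by simp) (by omega))
  · norm_num
  · omega
  · rw [div_lt_iff₀ (by positivity)] at hm
    push_cast
    linarith

theorem main {ε : ℝ} (hε : 0 < ε) : ∃ C : ℝ, ∀ H B : ℕ, 1 ≤ H → 1 ≤ B →
    (#(S1 H B) : ℝ) ≤ C * (H : ℝ) ^ ε * (H ^ 9 + B * H ^ 7) := by
  classical
  obtain ⟨C, C0, hC⟩ := exists_Dv hε
  refine ⟨10 ^ 30 * C + 3 ^ 10, fun H B hH hB => ?_⟩
  have rH : (1 : ℝ) ≤ H := by exact_mod_cast hH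
  have h1 : (1 : ℝ) ≤ (H : ℝ) ^ ε := Real.one_le_rpow rH hε.le
  rcases le_total B (H ^ 3) with h | h
  · obtain ⟨T, h2, h3⟩ := hC H hH
    refine (card_S1_le h2 hH hB h).trans ?_
    rw [← mul_assoc]
    exact mul_le_mul_of_nonneg_right (by nlinarith) (by positivity)
  · have h2 : (#(S1 H B) : ℝ) ≤ (2 * H + 1) ^ 10 := by
      exact_mod_cast (card_filter_le _ _).trans_eq (card_Bx 10 H)
    have h3 : (H : ℝ) ^ 3 ≤ B := by exact_mod_cast h
    calc (#(S1 H B) : ℝ) ≤ (3 * H) ^ 10 := h2.trans (by gcongr; linarith)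
      _ = (0 + 3 ^ 10) * 1 * (0 + H ^ 3 * H ^ 7 : ℝ) := by ring
      _ ≤ _ := by gcongr <;> positivity

end Pool.Agent.Lib.MP_65b7ad_nt
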